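import Pool.Agent.D0H10.Q4.StmE
import Pool.Agent.Y699.Sqf

/-!
Project Q4: the density of the squarefree primary Gaussian integers.
-/

set_option autoImplicit false

open Finset Filter
open scoped Topology

namespace Pool.Agent.D0H15.Q4

open H385 (ZI RQ im1 nrm BX)
open Pool.Agent.Y699
open Pool.Agent.W164.RC (two2 prim_iff_dvd unit_norm unit_cases)
open Pool.Agent.H304R2.EC.A1 (prim prim_mul prim_cancel prim_one prim_norm_odd prim_star eq_one_of_prim
  norm_def' re_mul' im_mul' eq_of_dvd prim_ne_zero exists_prim)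

/-- the number of lattice points of a disc -/
theorem disc_tendsto : ∃ v : ℝ, Tendsto (fun V : ℕ => ((Lat.disc V).card : ℝ) / V) atTop (𝓝 v) := by
  classical
  set L : Submodule ℤ (Fin 2 → ℝ) := Submodule.span ℤ (Set.range (Pi.basisFun ℝ (Fin 2))) with hL
  have : DiscreteTopology L := inferInstanceAs
    (DiscreteTopology (Submodule.span ℤ (Set.range (Pi.basisFun ℝ (Fin 2)))))
  have : IsZLattice ℝ L := inferInstanceAs
    (IsZLattice ℝ (Submodule.span ℤ (Set.range (Pi.basisFun ℝ (Fin 2)))))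
  set F : (Fin 2 → ℝ) → ℝ := fun x => x 0 ^ 2 + x 1 ^ 2 with hF
  have hFc : Continuous F := by
    rw [hF]; fun_prop
  have e1 : {x ∈ (Set.univ : Set (Fin 2 → ℝ)) | F x ≤ 1} = {x | F x ≤ 1} := by
    ext x; simp
  have hbd : Bornology.IsBounded {x | F x ≤ 1} := by
    rw [isBounded_iff_forall_norm_le]
    refine ⟨1, fun x hx => ?_⟩
    rw [pi_norm_le_iff_of_nonneg zero_le_one]
    intro i
    rw [Real.norm_eq_abs]
    have hx' : x 0 ^ 2 + x 1 ^ 2 ≤ 1 := hx
    apply abs_le_of_sq_le_sq _ zero_le_one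
    fin_cases i
    · show x 0 ^ 2 ≤ 1 ^ 2
      nlinarith [sq_nonneg (x 1)]
    · show x 1 ^ 2 ≤ 1 ^ 2
      nlinarith [sq_nonneg (x 0)]
  have hcl : IsClosed {x | F x ≤ 1} := isClosed_le hFc continuous_const
  have hcv : Convex ℝ {x | F x ≤ 1} := by
    intro x hx y hy a b ha hb hab
    have hx' : x 0 ^ 2 + x 1 ^ 2 ≤ 1 := hx
    have hy' : y 0 ^ 2 + y 1 ^ 2 ≤ 1 := hy
    show (a * x 0 + b * y 0) ^ 2 + (a * x 1 + b * y 1) ^ 2 ≤ 1
    have hb' : b = 1 - a := by linarith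
    subst hb'
    nlinarith [mul_nonneg ha hb, sq_nonneg (x 0 - y 0), sq_nonneg (x 1 - y 1),
      mul_le_mul_of_nonneg_left hx' ha, mul_le_mul_of_nonneg_left hy' hb,
      mul_nonneg (mul_nonneg ha hb) (add_nonneg (sq_nonneg (x 0 - y 0)) (sq_nonneg (x 1 - y 1)))]
  have key := ZLattice.covolume.tendsto_card_le_div L (X := Set.univ) (F := F)
    (fun _ _ _ _ => Set.mem_univ _) (fun x r _ => by
      show (r * x 0) ^ 2 + (r * x 1) ^ 2 = r ^ (Fintype.card (Fin 2)) * (x 0 ^ 2 + x 1 ^ 2)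
      rw [Fintype.card_fin]; ring)
    (by rw [e1]; exact hbd) (by rw [e1]; exact hcl.measurableSet)
    (by
      have e2 : {x | x ∈ (Set.univ : Set (Fin 2 → ℝ)) ∧ F x ≤ 1} = {x | F x ≤ 1} := by
        ext x; simp
      rw [e2]
      exact hcv.addHaar_frontier _)
  refine ⟨_, (key.comp tendsto_natCast_atTop_atTop).congr fun V => ?_⟩
  show (Nat.card ({x ∈ (Set.univ : Set (Fin 2 → ℝ)) | F x ≤ (V : ℝ)} ∩ L : Set (Fin 2 → ℝ)) : ℝ) / (V : ℝ) = _
  congr 2
  have e3 : ({x ∈ (Set.univ : Set (Fin 2 → ℝ)) | F x ≤ (V : ℝ)} ∩ L : Set (Fin 2 → ℝ)) =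
      (fun p : ℤ × ℤ => (![(p.1 : ℝ), (p.2 : ℝ)] : Fin 2 → ℝ)) '' (Lat.disc V : Set (ℤ × ℤ)) := by
    ext x
    rw [Set.mem_inter_iff, Set.mem_image]
    constructor
    · rintro ⟨⟨-, h1⟩, h2⟩
      have h3 : ∀ i, (Pi.basisFun ℝ (Fin 2)).repr x i ∈ Set.range (algebraMap ℤ ℝ) := by
        rw [SetLike.mem_coe, hL] at h2
        exact (Module.Basis.mem_span_iff_repr_mem ℤ (Pi.basisFun ℝ (Fin 2)) x).1 h2
      obtain ⟨a, ha⟩ := h3 0
      obtain ⟨b, hb⟩ := h3 1
      rw [Pi.basisFun_repr] at ha hb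
      refine ⟨(a, b), ?_, ?_⟩
      · rw [mem_coe, Lat.mem_disc]
        have h4 : x 0 ^ 2 + x 1 ^ 2 ≤ (V : ℝ) := h1
        rw [← ha, ← hb] at h4
        simp only [eq_intCast] at h4
        exact_mod_cast h4
      · funext i
        fin_cases i
        · exact ha
        · exact hb
    · rintro ⟨p, hp, rfl⟩
      rw [mem_coe, Lat.mem_disc] at hp
      refine ⟨⟨Set.mem_univ _, ?_⟩, ?_⟩
      · show ((p.1 : ℝ)) ^ 2 + ((p.2 : ℝ)) ^ 2 ≤ (V : ℝ)
        exact_mod_cast hp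
      · rw [SetLike.mem_coe, hL]
        refine (Module.Basis.mem_span_iff_repr_mem ℤ (Pi.basisFun ℝ (Fin 2)) _).2 fun i => ?_
        rw [Pi.basisFun_repr]
        fin_cases i
        · exact ⟨p.1, by simp⟩
        · exact ⟨p.2, by simp⟩
  rw [e3, Nat.card_coe_set_eq, Set.ncard_image_of_injective, Set.ncard_coe_finset]
  intro p q hpq
  have h0 := congrFun hpq 0
  have h1 := congrFun hpq 1
  simp only [Matrix.cons_val_zero, Matrix.cons_val_one, Int.cast_inj] at h0 h1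
  exact Prod.ext h0 h1

lemma inv_tendsto (K : ℝ) : Tendsto (fun V : ℕ => K * (2 * Real.sqrt V + 1) / V) atTop (𝓝 0) := by
  have h1 : Tendsto (fun V : ℕ => 2 * K / Real.sqrt V + K / V) atTop (𝓝 (0 + 0)) := by
    refine Tendsto.add ?_ ?_
    · exact Tendsto.const_div_atTop (Real.tendsto_sqrt_atTop.comp tendsto_natCast_atTop_atTop) _
    · exact Tendsto.const_div_atTop tendsto_natCast_atTop_atTop _
  rw [add_zero] at h1
  refine h1.congr' ?_
  filter_upwards [eventually_ge_atTop 1] with V hV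
  have h2 : (0 : ℝ) < V := by exact_mod_cast hV
  have h3 : 0 < Real.sqrt V := Real.sqrt_pos.2 h2
  have h4 : Real.sqrt V * Real.sqrt V = V := Real.mul_self_sqrt h2.le
  have h5 : 2 * K / Real.sqrt V = 2 * K * Real.sqrt V / V := by
    rw [div_eq_div_iff h3.ne' h2.ne']
    linear_combination (-(2 * K)) * h4
  rw [h5]
  ring

/-- sums of periodic functions -/
theorem per_tendsto {f : ℤ → ℤ → ℝ} {N : ℕ} (hN : 0 < N) (h1 : ∀ x y, f (x + N) y = f x y)
    (h2 : ∀ x y, f x (y + N) = f x y) (hf : ∀ x y, 0 ≤ f x y ∧ f x y ≤ 1) :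
    ∃ c : ℝ, Tendsto (fun V : ℕ => (∑ p ∈ Lat.disc V, f p.1 p.2) / V) atTop (𝓝 c) := by
  obtain ⟨v, hv⟩ := disc_tendsto
  have hNr : (0 : ℝ) < N := by exact_mod_cast hN
  set m : ℝ := (∑ i ∈ range N, ∑ j ∈ range N, f i j) / (N * N) with hm
  have hm0 : 0 ≤ m := div_nonneg (sum_nonneg fun _ _ => sum_nonneg fun _ _ => (hf _ _).1) (by positivity)
  have hm1 : m ≤ 1 := by
    rw [hm, div_le_one (by positivity)]
    have : ∑ i ∈ range N, ∑ j ∈ range N, f i j ≤ ∑ i ∈ range N, ∑ j ∈ range N, (1 : ℝ) :=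
      sum_le_sum fun _ _ => sum_le_sum fun _ _ => (hf _ _).2
    refine this.trans (le_of_eq ?_)
    simp
  have h0 : ∑ i ∈ range N, ∑ j ∈ range N, (f i j - m) = 0 := by
    simp only [sum_sub_distrib, sum_const, card_range, nsmul_eq_mul]
    rw [hm]
    field_simp
    ring
  have hb : ∀ x y, |f x y - m| ≤ 1 := by
    intro x y
    rw [abs_le]
    constructor
    · linarith [(hf x y).1]
    · linarith [(hf x y).2]
  have key := Lat.disc_bound (f := fun x y => f x y - m) hN (fun x y => by simp only [h1])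
    (fun x y => by simp only [h2]) h0 hb
  refine ⟨0 + m * v, ?_⟩
  have h3 : Tendsto (fun V : ℕ => (∑ p ∈ Lat.disc V, (f p.1 p.2 - m)) / V) atTop (𝓝 0) := by
    refine squeeze_zero_norm (fun V => ?_) (inv_tendsto (3 * N))
    rw [Real.norm_eq_abs, abs_div, Nat.abs_cast]
    exact div_le_div_of_nonneg_right (key V) (Nat.cast_nonneg V)
  refine (h3.add (hv.const_mul m)).congr fun V => ?_
  rw [sum_sub_distrib, sum_const, nsmul_eq_mul]
  ring

open Classical in
/-- primary elements not divisible by the squares of the small primary elements -/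
noncomputable def CB (z V : ℕ) : Finset ZI :=
  (PB V).filter (fun m => ∀ t ∈ (PB z).erase 1, ¬ t * t ∣ m)

lemma nrm_dvd_of_mem {z : ℕ} {t : ZI} (ht : t ∈ (PB z).erase 1) :
    t * t ∣ ((4 * ∏ t ∈ (PB z).erase 1, (nrm t * nrm t) : ℕ) : ZI) := by
  have h1 : nrm t * nrm t ∣ 4 * ∏ t ∈ (PB z).erase 1, (nrm t * nrm t) :=
    (dvd_prod_of_mem (fun t => nrm t * nrm t) ht).mul_left _
  obtain ⟨c, hc⟩ := h1
  rw [hc]
  push_cast
  exact (mul_dvd_mul (dvd_nrm t) (dvd_nrm t)).mul_right _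

theorem CB_tendsto (z : ℕ) : ∃ c : ℝ, Tendsto (fun V : ℕ => ((CB z V).card : ℝ) / V) atTop (𝓝 c) := by
  classical
  set N : ℕ := 4 * ∏ t ∈ (PB z).erase 1, (nrm t * nrm t) with hN
  have hNpos : 0 < N := by
    rw [hN]
    refine Nat.mul_pos (by norm_num) (prod_pos fun t ht => ?_)
    rw [mem_erase, mem_PB] at ht
    exact Nat.mul_pos (nrm_pos' (prim_ne_zero ht.2.2)) (nrm_pos' (prim_ne_zero ht.2.2))
  obtain ⟨G, hG⟩ : ∃ G : ZI → Prop, ∀ m, G m ↔ (prim m ∧ ∀ t ∈ (PB z).erase 1, ¬ t * t ∣ m) :=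
    ⟨_, fun _ => Iff.rfl⟩
  have per : ∀ a b : ZI, ((N : ℕ) : ZI) ∣ a - b → (G a → G b) := by
    intro a b hab hGa
    rw [hG] at hGa ⊢
    refine ⟨?_, fun t ht hd => hGa.2 t ht ?_⟩
    · have h1 : two2 ∣ a - b := by
        refine dvd_trans ?_ hab
        have e : two2 * (1 - im1) = 4 := by decide
        rw [hN]
        push_cast
        rw [← e]
        exact (dvd_mul_right _ _).mul_right _
      rw [prim_iff_dvd]
      have h2 := dvd_sub ((prim_iff_dvd a).1 hGa.1) h1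
      have e : a - 1 - (a - b) = b - 1 := by ring
      rwa [e] at h2
    · have h1 := (nrm_dvd_of_mem ht).trans hab
      have h2 := dvd_add h1 hd
      have e : a - b + b = a := by ring
      rwa [e] at h2
  have per' : ∀ a b : ZI, ((N : ℕ) : ZI) ∣ a - b → (G a ↔ G b) := by
    intro a b hab
    refine ⟨per a b hab, per b a ?_⟩
    have e : b - a = -(a - b) := by ring
    rw [e]
    exact hab.neg_right
  obtain ⟨c, hc⟩ := per_tendsto (f := fun x y => if G ⟨x, y⟩ then (1 : ℝ) else 0) hNpos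
    (fun x y => by
      have h1 : G ⟨x + N, y⟩ ↔ G ⟨x, y⟩ := by
        apply per'
        have : (⟨x + (N : ℕ), y⟩ : ZI) - ⟨x, y⟩ = ((N : ℕ) : ZI) := by
          ext <;> simp
        rw [this]
      simp only [h1])
    (fun x y => by
      have h1 : G ⟨x, y + N⟩ ↔ G ⟨x, y⟩ := by
        apply per'
        have : (⟨x, y + (N : ℕ)⟩ : ZI) - ⟨x, y⟩ = ((N : ℕ) : ZI) * im1 := by
          ext <;> simp [H385.im1]
        rw [this]
        exact dvd_mul_right _ _
      simp only [h1])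
    (fun x y => by split_ifs <;> norm_num)
  refine ⟨c, hc.congr fun V => ?_⟩
  rw [← sum_ZB V (fun m => if G m then (1 : ℝ) else 0)]
  congr 1
  rw [← sum_filter, sum_const, nsmul_eq_mul, mul_one]
  congr 2
  ext m
  unfold CB
  rw [mem_filter, mem_filter, mem_PB, mem_ZB, hG]
  tauto

lemma SB_sub (z V : ℕ) : SB V ⊆ CB z V := by
  classical
  intro m hm
  rw [mem_SB] at hm
  unfold CB
  rw [mem_filter, mem_PB]
  refine ⟨⟨hm.1, hm.2.prm⟩, fun t ht hd => ?_⟩
  rw [mem_erase, mem_PB] at ht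
  have h1 := hm.2.sqf t hd
  obtain ⟨u, rfl⟩ := h1
  exact ht.1 (eq_one_of_prim ht.2.2 (unit_norm u))

lemma cover (z V : ℕ) : CB z V ⊆ SB V ∪
    ((PB (Nat.sqrt V)).filter (fun t => z < nrm t)).biUnion
      (fun t => (PB (V / (nrm t * nrm t))).image (fun k => t * t * k)) := by
  classical
  intro m hm
  unfold CB at hm
  rw [mem_filter, mem_PB] at hm
  obtain ⟨⟨hmV, hm1⟩, hm2⟩ := hm
  rw [mem_union]
  by_cases hsq : Squarefree m
  · left
    rw [mem_SB]
    exact ⟨hmV, hm1, hsq⟩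
  · right
    rw [Squarefree] at hsq
    push Not at hsq
    obtain ⟨x, hx, hxu⟩ := hsq
    have hm0 := prim_ne_zero hm1
    have hx0 : x ≠ 0 := by
      rintro rfl
      rw [zero_mul, zero_dvd_iff] at hx
      exact hm0 hx
    obtain ⟨ρ, hρ, hρx⟩ := WfDvdMonoid.exists_irreducible_factor hxu hx0
    have hρ' : Prime ρ := irreducible_iff_prime.1 hρ
    have hρm : ρ * ρ ∣ m := (mul_dvd_mul hρx hρx).trans hx
    obtain ⟨π, hπ, hass⟩ := exists_PP hρ' (odd_of_dvd ((dvd_mul_right _ _).trans hρm) (prim_norm_odd hm1))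
    have hπm : π * π ∣ m := (mul_dvd_mul hass.dvd hass.dvd).trans hρm
    have hπ1 : π ≠ 1 := fun h => hπ.pr.not_isUnit (by rw [h]; exact isUnit_one)
    have hπs : nrm π ≤ Nat.sqrt V := by
      rw [Nat.le_sqrt]
      have h1 := norm_le_of_dvd hm0 hπm
      have h2 : nrm (π * π) ≤ nrm m := h1
      rw [nrm_mul] at h2
      exact h2.trans hmV
    rw [mem_biUnion]
    refine ⟨π, ?_, ?_⟩
    · rw [mem_filter, mem_PB]
      refine ⟨⟨hπs, hπ.prm⟩, ?_⟩
      by_contra hz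
      push Not at hz
      refine hm2 π ?_ hπm
      rw [mem_erase, mem_PB]
      exact ⟨hπ1, hz, hπ.prm⟩
    · obtain ⟨k, rfl⟩ := hπm
      rw [mem_image]
      refine ⟨k, ?_, rfl⟩
      rw [mem_PB]
      have hπ0 := prim_ne_zero hπ.prm
      refine ⟨?_, prim_cancel (prim_mul hπ.prm hπ.prm) hm1⟩
      rw [Nat.le_div_iff_mul_le (Nat.mul_pos (nrm_pos' hπ0) (nrm_pos' hπ0))]
      rw [nrm_mul, nrm_mul] at hmV
      linarith

/-- the tail of the sum -/
lemma tail_small {ε : ℝ} (hε : 0 < ε) : ∃ z : ℕ, ∀ W : ℕ,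
    ∑ t ∈ (PB W).filter (fun t => z < nrm t), (1 : ℝ) / (nrm t : ℝ) ^ 2 ≤ ε := by
  classical
  set T : ℕ → ℝ := fun W => ∑ t ∈ PB W, (1 : ℝ) / (nrm t : ℝ) ^ 2 with hT
  have hsub : ∀ {a b : ℕ}, a ≤ b → PB a ⊆ PB b := by
    intro a b hab m hm
    rw [mem_PB] at hm ⊢
    exact ⟨hm.1.trans hab, hm.2⟩
  have hmono : Monotone T := fun a b hab =>
    sum_le_sum_of_subset_of_nonneg (hsub hab) (fun _ _ _ => by positivity)
  have hbd : ∀ W, T W ≤ 2 := by
    intro W
    have h1 := sum_inv_sq W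
    have h2 : T W ≤ 1 + ∑ t ∈ (PB W).erase 1, (1 : ℝ) / (nrm t : ℝ) ^ 2 := by
      by_cases h : (1 : ZI) ∈ PB W
      · rw [hT]
        simp only
        rw [← add_sum_erase _ _ h]
        have : nrm (1 : ZI) = 1 := by decide
        rw [this]
        norm_num
      · rw [erase_eq_of_notMem h]
        show T W ≤ 1 + T W
        linarith
    linarith
  have hconv := tendsto_atTop_ciSup hmono ⟨2, by rintro _ ⟨W, rfl⟩; exact hbd W⟩
  set S := ⨆ i, T i with hS
  have hle : ∀ W, T W ≤ S := fun W => le_ciSup ⟨2, by rintro _ ⟨W, rfl⟩; exact hbd W⟩ W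
  obtain ⟨z, hz⟩ := ((hconv.eventually (eventually_gt_nhds (show S - ε < S by linarith)))).exists
  refine ⟨z, fun W => ?_⟩
  have h1 : (PB W).filter (fun t => z < nrm t) ⊆ (PB (max W z)) \ PB z := by
    intro t ht
    rw [mem_filter, mem_PB] at ht
    rw [Finset.mem_sdiff, mem_PB, mem_PB]
    exact ⟨⟨ht.1.1.trans (le_max_left _ _), ht.1.2⟩, fun h => by omega⟩
  have h2 := sum_le_sum_of_subset_of_nonneg (f := fun t => (1 : ℝ) / (nrm t : ℝ) ^ 2) h1
    (fun _ _ _ => by positivity)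
  have h3 := sum_sdiff (f := fun t => (1 : ℝ) / (nrm t : ℝ) ^ 2) (hsub (le_max_right W z))
  have h4 := hle (max W z)
  have h5 : T (max W z) = ∑ t ∈ PB (max W z), (1 : ℝ) / (nrm t : ℝ) ^ 2 := rfl
  have h6 : T z = ∑ t ∈ PB z, (1 : ℝ) / (nrm t : ℝ) ^ 2 := rfl
  linarith

lemma diff_small {z : ℕ} {ε : ℝ} (hz : ∀ W : ℕ,
    ∑ t ∈ (PB W).filter (fun t => z < nrm t), (1 : ℝ) / (nrm t : ℝ) ^ 2 ≤ ε) {V : ℕ} (hV : 1 ≤ V) :
    ((CB z V).card : ℝ) / V ≤ ((SB V).card : ℝ) / V + 9 * ε := by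
  classical
  have hVr : (0 : ℝ) < V := by exact_mod_cast hV
  have h1 := (card_le_card (cover z V)).trans (card_union_le _ _)
  have h2 := h1.trans (Nat.add_le_add_left card_biUnion_le _)
  have h3 : ((CB z V).card : ℝ) ≤ ((SB V).card : ℝ) +
      ∑ t ∈ (PB (Nat.sqrt V)).filter (fun t => z < nrm t),
        (((PB (V / (nrm t * nrm t))).image (fun k => t * t * k)).card : ℝ) := by
    exact_mod_cast h2
  have h4 : ∑ t ∈ (PB (Nat.sqrt V)).filter (fun t => z < nrm t),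
        (((PB (V / (nrm t * nrm t))).image (fun k => t * t * k)).card : ℝ) ≤
      ∑ t ∈ (PB (Nat.sqrt V)).filter (fun t => z < nrm t), 9 * V * ((1 : ℝ) / (nrm t : ℝ) ^ 2) := by
    refine sum_le_sum fun t ht => ?_
    rw [mem_filter, mem_PB] at ht
    have ht0 := nrm_pos' (prim_ne_zero ht.1.2)
    have h5 : nrm t * nrm t ≤ V := Nat.le_sqrt.1 ht.1.1
    have h6 : 1 ≤ V / (nrm t * nrm t) := (Nat.one_le_div_iff (Nat.mul_pos ht0 ht0)).2 h5
    have h7 : (((PB (V / (nrm t * nrm t))).image (fun k => t * t * k)).card : ℝ) ≤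
        ((PB (V / (nrm t * nrm t))).card : ℝ) := by exact_mod_cast card_image_le
    refine (h7.trans (card_PB_le h6)).trans ?_
    have h8 := @Nat.cast_div_le ℝ _ _ _ V (nrm t * nrm t)
    push_cast at h8
    rw [mul_assoc, mul_one_div, sq]
    linarith
  rw [← mul_sum] at h4
  have h5 := mul_le_mul_of_nonneg_left (hz (Nat.sqrt V)) (show (0 : ℝ) ≤ 9 * V by positivity)
  have h6 : ((CB z V).card : ℝ) ≤ ((SB V).card : ℝ) + 9 * V * ε := by linarith
  rw [div_le_iff₀ hVr, add_mul, div_mul_cancel₀ _ hVr.ne']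
  linarith

/-- **E1 SQF** -/
theorem sqf : Pool.Agent.D0H10.Q4.S_SQF := by
  classical
  set b : ℕ → ℝ := fun V => ((SB V).card : ℝ) / V with hb
  have hC : CauchySeq b := by
    rw [Metric.cauchySeq_iff']
    intro ε hε
    obtain ⟨z, hz⟩ := tail_small (show 0 < ε / 40 by positivity)
    obtain ⟨c, hc⟩ := CB_tendsto z
    rw [Metric.tendsto_atTop] at hc
    obtain ⟨M, hM⟩ := hc (ε / 8) (by positivity)
    have key : ∀ n, max M 1 ≤ n → |b n - c| ≤ ε / 8 + 9 * (ε / 40) := by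
      intro n hn
      have h1 := hM n ((le_max_left _ _).trans hn)
      rw [Real.dist_eq, abs_lt] at h1
      have h2 := diff_small hz ((le_max_right M 1).trans hn)
      have h3 : b n ≤ ((CB z n).card : ℝ) / n :=
        div_le_div_of_nonneg_right (by exact_mod_cast card_le_card (SB_sub z n)) (Nat.cast_nonneg n)
      have h4 : b n = ((SB n).card : ℝ) / n := rfl
      rw [abs_le]
      constructor <;> linarith
    refine ⟨max M 1, fun n hn => ?_⟩
    have h1 := abs_le.1 (key n hn)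
    have h2 := abs_le.1 (key _ le_rfl)
    rw [Real.dist_eq, abs_lt]
    constructor <;> linarith
  obtain ⟨κ, hκ⟩ := cauchySeq_tendsto_of_complete hC
  refine ⟨κ, ?_, hκ⟩
  obtain ⟨V0, hV0⟩ := sqf_count
  have h1 : ∀ᶠ V in atTop, (1 : ℝ) / 35 ≤ b V := by
    filter_upwards [eventually_ge_atTop (max V0 1)] with V hV
    have h2 := hV0 V ((le_max_left _ _).trans hV) 1 (Or.inl rfl)
    have h3 : (((SB V).filter (fun m => m.norm % 8 = 1)).card : ℝ) ≤ ((SB V).card : ℝ) := by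
      exact_mod_cast card_le_card (filter_subset _ _)
    have h4 : (0 : ℝ) < V := by exact_mod_cast (le_max_right V0 1).trans hV
    show (1 : ℝ) / 35 ≤ ((SB V).card : ℝ) / V
    rw [le_div_iff₀ h4]
    linarith
  have h2 := ge_of_tendsto hκ h1
  linarith

end Pool.Agent.D0H15.Q4
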