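import Mathlib

/-!
Project Q4, module A11: a sum of principal minors of Laplace matrices in characteristic two.
-/

set_option autoImplicit false

open Finset

namespace Pool.Agent.D0H15.Q4

variable {α R : Type} [Fintype α] [DecidableEq α] [CommRing R]

/-- the rows: `e_i` for `none` and `e_i + e_l` for `some l` -/
def rw1 (R : Type) [CommRing R] (i : α) : Option α → (α → R)
  | none => Pi.single i 1
  | some l => Pi.single i 1 + Pi.single l 1

/-- the coefficients -/
def cf (t : α → R) (A : α → α → R) (T : Finset α) (i : α) : Option α → R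
  | none => t i
  | some l => if l ∈ T ∧ l ≠ i then A l i else 0

/-- the matrix on all of `α` -/
def NT (t : α → R) (A : α → α → R) (T : Finset α) : Matrix α α R :=
  Matrix.of fun i j => if i = j then t i + ∑ l ∈ T.erase i, A l i else if j ∈ T then A j i else 0

theorem NT_row (t : α → R) (A : α → α → R) (T : Finset α) :
    NT t A T = Matrix.of (fun i => ∑ o : Option α, cf t A T i o • rw1 R i o) := by
  ext i j
  rw [Matrix.of_apply]
  rw [Fintype.sum_option]
  simp only [cf, rw1, Pi.add_apply, Pi.smul_apply, Finset.sum_apply, smul_eq_mul, NT, Matrix.of_apply,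
    Pi.single_apply]
  have h1 : ∀ l : α, (if l ∈ T ∧ l ≠ i then A l i else 0) * ((if j = i then (1 : R) else 0) + if j = l then 1 else 0)
      = (if j = i then (if l ∈ T ∧ l ≠ i then A l i else 0) else 0) +
        (if l = j then (if l ∈ T ∧ l ≠ i then A l i else 0) else 0) := by
    intro l
    have h6 : (if j = l then (1 : R) else 0) = if l = j then 1 else 0 := by simp only [eq_comm]
    rw [h6, mul_add, mul_ite, mul_ite, mul_one, mul_zero]
  rw [Finset.sum_congr rfl fun l _ => h1 l, Finset.sum_add_distrib, Finset.sum_ite_eq']
  have h5 : ∑ l, (if l ∈ T ∧ l ≠ i then A l i else 0) = ∑ l ∈ T.erase i, A l i := by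
    rw [← Finset.sum_filter]
    refine Finset.sum_congr ?_ fun _ _ => rfl
    ext x
    simp [and_comm]
  by_cases h2 : i = j
  · subst h2
    simp only [if_true, h5, ne_eq, not_true_eq_false, and_false, if_false, add_zero, mul_one, Finset.mem_univ]
  · have h2' : ¬ j = i := fun h => h2 h.symm
    by_cases h4 : j ∈ T <;> simp [h2, h2', h4]

theorem det_NT (t : α → R) (A : α → α → R) (T : Finset α) :
    (NT t A T).det = ∑ f : α → Option α, (∏ i, cf t A T i (f i)) * (Matrix.of fun i => rw1 R i (f i)).det := by
  rw [NT_row]
  have h := (Matrix.detRowAlternating (R := R) (n := α)).toMultilinearMap.map_sum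
    (fun i (o : Option α) => cf t A T i o • rw1 R i o)
  refine h.trans (Finset.sum_congr rfl fun f _ => ?_)
  exact (Matrix.detRowAlternating (R := R) (n := α)).toMultilinearMap.map_smul_univ _ _

theorem sum_prod_cf (h2 : (2 : R) = 0) (t : α → R) (A : α → α → R) (f : α → Option α) (k : α)
    (hk : ∀ i, f i ≠ some k) : ∑ T : Finset α, ∏ i, cf t A T i (f i) = 0 := by
  -- toggling `k`
  have h : ∑ T : Finset α, ∏ i, cf t A T i (f i) = ∑ T ∈ (univ.erase k).powerset,
      (∏ i, cf t A T i (f i) + ∏ i, cf t A (insert k T) i (f i)) := by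
    rw [Finset.sum_add_distrib]
    have e1 : (univ : Finset (Finset α)) = (insert k (univ.erase k)).powerset := by
      rw [Finset.insert_erase (Finset.mem_univ k), Finset.powerset_univ]
    rw [e1, Finset.sum_powerset_insert (Finset.notMem_erase k univ)]
  rw [h]
  refine Finset.sum_eq_zero fun T _ => ?_
  have h3 : ∏ i, cf t A (insert k T) i (f i) = ∏ i, cf t A T i (f i) := by
    refine Finset.prod_congr rfl fun i _ => ?_
    rcases hf : f i with _ | l
    · rfl
    · have hl : l ≠ k := fun h => hk i (by rw [hf, h])
      simp only [cf, Finset.mem_insert]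
      congr 1
      simp [hl]
  rw [h3, ← two_mul, h2, zero_mul]

theorem det_row_zero (h2 : (2 : R) = 0) (hα : Nonempty α) (f : α → Option α) (hf : ∀ i, f i ≠ none) :
    (Matrix.of fun i => rw1 R i (f i)).det = 0 := by
  obtain ⟨k⟩ := hα
  -- the sum of the columns is zero
  rw [← Matrix.det_transpose]
  have hsum : ∀ i, ∑ j, rw1 R i (f i) j = 0 := by
    intro i
    rcases hfi : f i with _ | l
    · exact absurd hfi (hf i)
    · simp only [rw1, Pi.add_apply, Finset.sum_add_distrib, Finset.sum_pi_single', Finset.mem_univ, if_true]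
      rw [one_add_one_eq_two, h2]
  have h := Matrix.det_updateRow_sum (Matrix.of fun i => rw1 R i (f i)).transpose k (fun _ => 1)
  rw [one_smul] at h
  rw [← h]
  refine Matrix.det_eq_zero_of_row_eq_zero k fun i => ?_
  rw [Matrix.updateRow_self, Finset.sum_apply]
  simpa [Matrix.transpose_apply, Matrix.of_apply] using hsum i

/-- the alternating sum of the determinants is zero -/
theorem sum_det (h2 : (2 : R) = 0) (hα : Nonempty α) (t : α → R) (A : α → α → R) :
    ∑ T : Finset α, (NT t A T).det = 0 := by
  simp only [det_NT]
  rw [Finset.sum_comm]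
  refine Finset.sum_eq_zero fun f _ => ?_
  rw [← Finset.sum_mul]
  by_cases h : ∀ k, ∃ i, f i = some k
  · -- `f` is a bijection onto `some`
    have hne : ∀ i, f i ≠ none := by
      choose g hg using h
      have hginj : Function.Injective g := fun a b hab => by
        have := hg a
        rw [hab, hg b] at this
        exact (Option.some.inj this).symm
      have hgs := (Finite.injective_iff_surjective.1 hginj)
      intro i
      obtain ⟨k, rfl⟩ := hgs i
      rw [hg k]
      exact Option.some_ne_none k
    rw [det_row_zero h2 hα f hne, mul_zero]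
  · push Not at h
    obtain ⟨k, hk⟩ := h
    rw [sum_prod_cf h2 t A f k hk, zero_mul]

/-- the determinant of the block triangular matrix -/
theorem det_NT_block (t : α → R) (A : α → α → R) (T : Finset α) :
    (NT t A T).det = (Matrix.of fun i j : T => if i = j then t i + ∑ l ∈ T.erase i, A l i else A j i).det *
      ∏ k ∈ univ \ T, (t k + ∑ l ∈ T, A l k) := by
  rw [Matrix.twoBlockTriangular_det (NT t A T) (fun i => i ∉ T) (fun i hi j hj => by
    rw [not_not] at hi
    have hij : i ≠ j := fun h => hj (h ▸ hi)
    simp [NT, hij, hj])]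
  rw [mul_comm]
  congr 1
  · -- the block of `T`
    let e' : {a // ¬ a ∉ T} ≃ T := Equiv.subtypeEquivRight fun a => not_not
    rw [← Matrix.det_submatrix_equiv_self e']
    congr 1
    ext i j
    have hj : (j : α) ∈ T := not_not.1 j.2
    simp only [Matrix.toSquareBlockProp, Matrix.toBlock, Matrix.submatrix_apply, Matrix.of_apply, NT]
    by_cases h : (i : α) = j
    · have h' : e' i = e' j := Subtype.ext h
      simp [h, h', e']
    · have h' : e' i ≠ e' j := fun h'' => h (congrArg (fun x : T => (x : α)) h'')
      simp [h, h', hj, e']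
  · -- the diagonal block
    have hd : (NT t A T).toSquareBlockProp (fun i => i ∉ T) =
        Matrix.diagonal (fun k : {a // a ∉ T} => t k + ∑ l ∈ T, A l k) := by
      ext i j
      simp only [Matrix.toSquareBlockProp, Matrix.toBlock, Matrix.submatrix_apply, Matrix.of_apply, NT,
        Matrix.diagonal_apply]
      by_cases h : i = j
      · subst h
        rw [if_pos rfl, if_pos rfl, Finset.erase_eq_of_notMem i.2]
      · have h' : (i : α) ≠ j := fun h'' => h (Subtype.ext h'')
        rw [if_neg h', if_neg h, if_neg j.2]
    rw [hd, Matrix.det_diagonal]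
    rw [show (univ \ T : Finset α) = univ.filter (fun a => a ∉ T) by ext; simp]
    rw [← Finset.prod_subtype_eq_prod_filter]
    refine Finset.prod_congr ?_ fun _ _ => rfl
    ext x
    simp

end Pool.Agent.D0H15.Q4
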