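import Pool.Agent.D0H10.Q4.StmA
import Pool.Agent.D0H15.Q4.Det

/-!
Project Q4, module A11: the recursion determines the determinants.
-/

set_option autoImplicit false

open Finset

namespace Pool.Agent.D0H15.Q4

variable {ι : Type} [DecidableEq ι]

omit [DecidableEq ι] in
/-- elements of a subset of `V` -/
theorem mem_img {V : Finset ι} {T : Finset V} {x : V} :
    (x : ι) ∈ T.map (Function.Embedding.subtype (· ∈ V)) ↔ x ∈ T := by
  rw [Finset.mem_map]
  constructor
  · rintro ⟨y, hy, h⟩
    have : y = x := Subtype.ext h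
    rwa [← this]
  · intro h
    exact ⟨x, h, rfl⟩

/-- the matrix of a subset of `V` -/
theorem block_eq (t : ι → ZMod 2) (A : ι → ι → ZMod 2) (V : Finset ι) (T : Finset V) :
    (Matrix.of fun i j : T => if i = j then t (i : V) + ∑ l ∈ T.erase (i : V), A (l : V) (i : V)
      else A (j : V) (i : V)).det =
      (D0H10.Q4.MQ t A (T.map (Function.Embedding.subtype (· ∈ V)))).det := by
  have hbij : Function.Bijective (fun x : T =>
      (⟨((x : V) : ι), mem_img.2 x.2⟩ : (T.map (Function.Embedding.subtype (· ∈ V)) : Finset ι))) := by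
    constructor
    · intro a b h
      have h' : ((a : V) : ι) = ((b : V) : ι) := congrArg (fun x : (T.map (Function.Embedding.subtype (· ∈ V)) : Finset ι) => (x : ι)) h
      exact Subtype.ext (Subtype.ext h')
    · rintro ⟨x, hx⟩
      obtain ⟨y, hy, rfl⟩ := Finset.mem_map.1 hx
      exact ⟨⟨y, hy⟩, rfl⟩
  rw [← Matrix.det_submatrix_equiv_self (Equiv.ofBijective _ hbij) (D0H10.Q4.MQ t A _)]
  congr 1
  ext i j
  simp only [Matrix.of_apply, Matrix.submatrix_apply, D0H10.Q4.MQ, Equiv.ofBijective_apply]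
  by_cases h : i = j
  · subst h
    rw [if_pos rfl, if_pos rfl]
    congr 1
    refine Finset.sum_bij (fun x _ => ((x : V) : ι)) ?_ ?_ ?_ ?_
    · intro x hx
      rw [Finset.mem_erase] at hx ⊢
      exact ⟨fun h => hx.1 (Subtype.ext h), mem_img.2 hx.2⟩
    · intro x _ y _ h
      exact Subtype.ext h
    · intro y hy
      rw [Finset.mem_erase, Finset.mem_map] at hy
      obtain ⟨h1, z, hz, rfl⟩ := hy
      refine ⟨z, Finset.mem_erase.2 ⟨fun h => h1 ?_, hz⟩, rfl⟩
      rw [h]
      rfl
    · intro x _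
      rfl
  · rw [if_neg h, if_neg]
    intro h'
    have h2 : ((i : V) : ι) = ((j : V) : ι) := congrArg (fun x : (T.map (Function.Embedding.subtype (· ∈ V)) : Finset ι) => (x : ι)) h'
    exact h (Subtype.ext (Subtype.ext h2))

/-- the sum over the subsets of `V` -/
theorem sum_MQ (t : ι → ZMod 2) (A : ι → ι → ZMod 2) (V : Finset ι) (hV : V.Nonempty) :
    ∑ T ∈ V.powerset, (D0H10.Q4.MQ t A T).det * ∏ k ∈ V \ T, (t k + ∑ l ∈ T, A l k) = 0 := by
  have h := sum_det (α := V) (R := ZMod 2) rfl ⟨⟨_, hV.choose_spec⟩⟩ (fun i => t i) (fun i j => A i j)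
  rw [← h]
  symm
  refine Finset.sum_bij (fun T _ => T.map (Function.Embedding.subtype (· ∈ V))) ?_ ?_ ?_ ?_
  · intro T _
    rw [Finset.mem_powerset]
    intro x hx
    obtain ⟨y, _, rfl⟩ := Finset.mem_map.1 hx
    exact y.2
  · intro T _ T' _ h
    exact Finset.map_injective _ h
  · intro T hT
    refine ⟨T.subtype (· ∈ V), Finset.mem_univ _, ?_⟩
    exact Finset.subtype_map_of_mem (Finset.mem_powerset.1 hT)
  · intro T _
    rw [det_NT_block, block_eq]
    congr 1
    refine Finset.prod_bij (fun x _ => ((x : V) : ι)) ?_ ?_ ?_ ?_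
    · intro x hx
      rw [Finset.mem_sdiff] at hx ⊢
      exact ⟨x.2, fun h => hx.2 (mem_img.1 h)⟩
    · intro x _ y _ h
      exact Subtype.ext h
    · intro y hy
      rw [Finset.mem_sdiff] at hy
      exact ⟨⟨y, hy.1⟩, Finset.mem_sdiff.2 ⟨Finset.mem_univ _, fun h => hy.2 (mem_img.2 h)⟩, rfl⟩
    · intro x _
      rw [Finset.sum_map]
      rfl

/-- **A11** -/
theorem comb : D0H10.Q4.S_COMB := by
  intro ι _ t A _ b hb V
  induction V using Finset.strongInduction with
  | H V ih =>
    have h1 := hb V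
    rcases V.eq_empty_or_nonempty with rfl | hV
    · rw [if_pos rfl] at h1
      simp only [Finset.powerset_empty, Finset.sum_singleton, Finset.sdiff_self, Finset.prod_empty, mul_one] at h1
      rw [h1]
      symm
      exact Matrix.det_isEmpty
    · rw [if_neg hV.ne_empty] at h1
      have h2 := sum_MQ t A V hV
      have hmem : V ∈ V.powerset := Finset.mem_powerset_self V
      rw [← Finset.add_sum_erase _ _ hmem] at h1 h2
      have h3 : ∑ T ∈ V.powerset.erase V, b T * ∏ k ∈ V \ T, (t k + ∑ l ∈ T, A l k) =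
          ∑ T ∈ V.powerset.erase V, (D0H10.Q4.MQ t A T).det * ∏ k ∈ V \ T, (t k + ∑ l ∈ T, A l k) := by
        refine Finset.sum_congr rfl fun T hT => ?_
        rw [Finset.mem_erase, Finset.mem_powerset] at hT
        rw [ih T (Finset.ssubset_iff_subset_ne.2 ⟨hT.2, hT.1⟩)]
      rw [h3] at h1
      simp only [Finset.sdiff_self, Finset.prod_empty, mul_one] at h1 h2
      exact add_right_cancel (h1.trans h2.symm)

end Pool.Agent.D0H15.Q4
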