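import Pool.Agent.D0H15.Q4.Fin

/-!
Project Q4, module A9: the sums over half systems vanish.
-/

set_option autoImplicit false

open Finset

namespace Pool.Agent.D0H15.Q4

open H385 (ZI RQ im1 nrm)
open Pool.Agent.Y699
open Pool.Agent.D0H10.Q4 (oo uA Dst Half)
open Pool.Agent.H304R2.EC.A1 (prim prim_mul prim_norm_odd prim_ne_zero)

variable {A : Type} [CommRing A] {ι : Type} [DecidableEq ι] {pr : ι → ZI} {F : ZI → ZI → A}

/-- the sum over a half system modulo a prime of a function shifted by `i` -/
theorem quarter (h2 : (2 : A) = 0) {p : ZI} (hp : PP p) {g : ZI → A} (hg : Per p g) (hev : ∀ t, g (-t) = g t)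
    (hz : ∀ t, p ∣ t → g t = 0) {w : A} (him : ∀ t, ¬ p ∣ t → g (im1 * t) = g t + w) {S : ZI → A}
    (hS : Per p S) (hS1 : ∀ t, ¬ p ∣ t → S t + S (-t) = 1) :
    SS p (fun t => S t * g t) = w * uA (if p.norm % 8 = 5 then 1 else 0) := by
  classical
  have hp0 := hp.ne
  have hodd : p.norm % 2 = 1 := prim_norm_odd hp.prm
  obtain ⟨R, hR, hR1, hR2⟩ := exists_quarter A h2 hp
  have hne : ∀ t, g t ≠ 0 → ¬ p ∣ t := fun t ht h => ht (hz t h)
  have hper' : Per p (fun t => R t + R (im1 * t)) := by
    intro t s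
    have e1 := hR t s
    have e2 : R (im1 * (t + p * s)) = R (im1 * t) := by
      rw [show im1 * (t + p * s) = im1 * t + p * (im1 * s) by ring]; exact hR _ _
    simp only [e1, e2]
  rw [sel_indep h2 hodd hS hper' hg hev (hz 0 (dvd_zero _)) (fun t ht => hS1 t (hne t ht))
    (fun t ht => hR1 t (hne t ht))]
  have hf : Per p (fun t => R (im1 * t) * g t) := by
    intro t s
    have e1 := hg t s
    have e2 : R (im1 * (t + p * s)) = R (im1 * t) := by
      rw [show im1 * (t + p * s) = im1 * t + p * (im1 * s) by ring]; exact hR _ _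
    simp only [e1, e2]
  have hc : IsCoprime (-im1) p := ⟨im1, 0, by linear_combination -im_sq⟩
  have g1 := SS_unit (A := A) hp0 hc hf
  have e1 : SS p (fun t => (R t + R (im1 * t)) * g t) =
      SS p (fun t => R t * g t) + SS p (fun t => R (im1 * t) * g t) := by
    rw [← SS_add hp0]
    congr 1
    funext t
    ring
  rw [e1, ← g1, ← SS_add hp0, ← hR2, ← SS_mul hp0]
  congr 1
  funext t
  by_cases ht : p ∣ t
  · rw [if_pos ht, hz t ht, hz _ (ht.mul_left _)]
    ring
  · rw [if_neg ht]
    have e3 : im1 * (-im1 * t) = t := by linear_combination -t * im_sq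
    have e4 : g (-im1 * t) = g t + w := by
      rw [neg_mul, hev, him t ht]
    rw [e3, e4]
    linear_combination R t * g t * h2

/-- the base of the recursion -/
theorem Psi_base (h2 : (2 : A) = 0) (hp : PF pr) (hF : Dst F) (m : ι) {S : ZI → A} (hS : Sl pr {m} S) :
    Psi pr F {m} {m} S = uA (wt pr m) := by
  classical
  have hD : DD pr {m} = pr m := Finset.prod_singleton _ _
  have hun : ∀ t, un pr {m} t ↔ ¬ pr m ∣ t := by
    intro t
    simp only [un, Finset.mem_singleton, forall_eq]
  unfold Psi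
  rw [hD]
  have hg : Per (pr m) (gf pr F {m} {m}) := by
    have := gf_per (pr := pr) hF {m} {m}
    rwa [hD] at this
  have hSp : Per (pr m) S := by
    have := hS.per
    rwa [hD] at this
  have hev : ∀ t, gf pr F {m} {m} t = if pr m ∣ t then 0 else F (pr m) t := by
    intro t
    unfold gf
    by_cases ht : pr m ∣ t
    · rw [if_pos ht, if_neg (fun h => (hun t).1 h ht)]
    · rw [if_neg ht, if_pos ((hun t).2 ht), hD, Finset.sdiff_self, Finset.prod_empty, ← uR_apply h2, map_one,
        one_mul]
  rw [quarter h2 (hp.pp m) hg (gf_neg hp hF _ _) (w := 1) ?_ ?_ hSp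
    (fun t ht => hS.one t ((hun t).2 ht))]
  · rw [one_mul]
    rfl
  · intro t ht
    rw [hev, if_pos ht]
  · intro t ht
    have ht' : ¬ pr m ∣ im1 * t := fun h => ht (im_dvd.1 h)
    rw [hev, hev, if_neg ht, if_neg ht', hF.im _ _ (prim_norm_odd (hp.pp m).prm) ht]

/-- the closed form of the sums with one omitted factor -/
theorem Psi_path (h2 : (2 : A) = 0) (hp : PF pr) (hF : Dst F) (n : ℕ) : ∀ (V : Finset ι) (m : ι), m ∈ V →
    V.card = n + 1 → ∀ S : ZI → A, Sl pr V S →
    Psi pr F V {m} S = ∑ b ∈ V, uA (Qp (Y699.em pr) n V m b) * uA (wt pr b) := by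
  induction n with
  | zero =>
    intro V m hm hV S hS
    obtain ⟨a, rfl⟩ := Finset.card_eq_one.1 hV
    obtain rfl := Finset.mem_singleton.1 hm
    rw [Psi_base h2 hp hF m hS, Finset.sum_singleton, Qp, if_pos ⟨rfl, rfl⟩, ← uR_apply h2 1, map_one,
      one_mul]
  | succ n ih =>
    intro V m hm hV S hS
    have hc : (V.erase m).card = n + 1 := by rw [Finset.card_erase_of_mem hm]; omega
    have hne : (V.erase m).Nonempty := Finset.card_pos.1 (by omega)
    obtain ⟨S', hS'⟩ := exists_Sl (A := A) hp hne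
    rw [Psi_one h2 hp hF hm hne hS hS']
    rw [Finset.sum_congr rfl fun k hk => by rw [ih (V.erase m) k hk hc S' hS']]
    simp only [Finset.mul_sum]
    rw [Finset.sum_comm, ← Finset.add_sum_erase _ _ hm]
    have e0 : uA (A := A) (Qp (Y699.em pr) (n + 1) V m m) * uA (wt pr m) = 0 := by
      rw [Qp_diag, ← uR_apply h2 0, map_zero, zero_mul]
    rw [e0, zero_add]
    refine Finset.sum_congr rfl fun b _ => ?_
    rw [Qp, if_pos hm, ← uR_apply h2 (∑ k ∈ V.erase m, _), map_sum, Finset.sum_mul]
    refine Finset.sum_congr rfl fun k _ => ?_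
    rw [map_mul, uR_apply, uR_apply]
    ring

open Classical in
omit [DecidableEq ι] in
/-- the sums without the function `F`, one prime -/
theorem first_one (h2 : (2 : A) = 0) (hp : PF pr) (m : ι) {S : ZI → A} (hS : Sl pr {m} S) :
    SS (DD pr {m}) (fun t => S t * (if un pr {m} t then uA (∏ k ∈ {m}, oo pr k t) else 0)) =
      uA (wt pr m) := by
  have hD : DD pr {m} = pr m := Finset.prod_singleton _ _
  have hun : ∀ t, un pr {m} t ↔ ¬ pr m ∣ t := by
    intro t
    simp only [un, Finset.mem_singleton, forall_eq]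
  have hSp : Per (pr m) S := by
    have := hS.per
    rwa [hD] at this
  have hP := hp.pp m
  have hev : ∀ t, (if un pr {m} t then uA (A := A) (∏ k ∈ {m}, oo pr k t) else 0) =
      if pr m ∣ t then 0 else uA (oo pr m t) := by
    intro t
    by_cases ht : pr m ∣ t
    · rw [if_pos ht, if_neg (fun h => (hun t).1 h ht)]
    · rw [if_neg ht, if_pos ((hun t).2 ht), Finset.prod_singleton]
  simp only [hev, hD]
  rw [quarter h2 hP (g := fun t => if pr m ∣ t then 0 else uA (oo pr m t)) ?_ ?_ ?_ (w := uA (wt pr m)) ?_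
    hSp (fun t ht => hS.one t ((hun t).2 ht))]
  · show uA (wt pr m) * uA (wt pr m) = _
    rcases zm (wt pr m) with h | h <;> rw [h] <;> simp [uA]
  · intro t s
    have h1 : pr m ∣ (t + pr m * s) - t := ⟨s, by ring⟩
    have h3 : pr m ∣ t + pr m * s ↔ pr m ∣ t := dvd_add_left (dvd_mul_right _ _)
    show (if pr m ∣ t + pr m * s then (0 : A) else uA (oo pr m (t + pr m * s))) = _
    rw [oo_per h1]
    exact if_congr h3 rfl rfl
  · intro t
    show (if pr m ∣ -t then (0 : A) else uA (oo pr m (-t))) = _
    rw [oo_neg hp]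
    exact if_congr dvd_neg rfl rfl
  · intro t ht
    exact if_pos ht
  · intro t ht
    have ht' : ¬ pr m ∣ im1 * t := fun h => ht (im_dvd.1 h)
    show (if pr m ∣ im1 * t then (0 : A) else uA (oo pr m (im1 * t))) =
      (if pr m ∣ t then (0 : A) else uA (oo pr m t)) + uA (wt pr m)
    rw [if_neg ht, if_neg ht', ← uR_apply h2 (oo pr m t), ← uR_apply h2 (wt pr m), ← map_add,
      ← uR_apply h2 (oo pr m (im1 * t))]
    congr 1
    have e : 8 * (im1 * t) = im1 * (8 * t) := by ring
    unfold oo wt
    rw [e, qr_mul hP, qr_im hP]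
    have h3 : (1 : ZMod 2) + 1 = 0 := by decide
    have hm := hP.norm_mod
    by_cases h8 : (pr m).norm % 8 = 1
    · rw [if_pos h8, one_mul, if_neg (show ¬ (pr m).norm % 8 = 5 by omega), add_zero]
    · rw [if_neg h8, if_pos (show (pr m).norm % 8 = 5 by omega)]
      rcases qr_cases (not_dvd_eight hP ht) with h | h <;> rw [h] <;> norm_num
      exact h3.symm

open Classical in
/-- the sums without the function `F`, several primes -/
theorem first_two (h2 : (2 : A) = 0) (hp : PF pr) {V : Finset ι} {m : ι} (hm : m ∈ V)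
    (hV : (V.erase m).Nonempty) {S : ZI → A} (hS : Sl pr V S) :
    SS (DD pr V) (fun t => S t * (if un pr V t then uA (∏ k ∈ V, oo pr k t) else 0)) = 0 := by
  obtain ⟨S', hS'⟩ := exists_Sl (A := A) hp hV
  set D' := DD pr (V.erase m) with hD'
  have hD'0 : D' ≠ 0 := DD_ne hp _
  have hπ0 : pr m ≠ 0 := (hp.pp m).ne
  have hcop : IsCoprime (pr m) D' := cop_erase hp V m
  obtain ⟨u, v, huv⟩ := hcop
  have hDV : DD pr V = pr m * D' := DD_erase hm
  have hVne : V.Nonempty := ⟨m, hm⟩
  have hSu : Sl pr V (fun t => S' (u * t)) := by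
    constructor
    · intro t s
      show S' (u * (t + DD pr V * s)) = _
      rw [hDV]
      have e : u * (t + pr m * D' * s) = u * t + D' * (u * pr m * s) := by ring
      rw [e, hS'.per]
    · intro t ht
      have h1 : un pr (V.erase m) t := fun k hk => ht k (Finset.mem_of_mem_erase hk)
      have h3 := hS'.one (u * t) (un_inv hp huv h1)
      show S' (u * t) + S' (u * -t) = 1
      rw [mul_neg]
      exact h3
  let f : ZI → A := fun t => if un pr V t then uA (∏ k ∈ V, oo pr k t) else 0
  have hf : Per (DD pr V) f := by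
    intro t s
    have h1 : DD pr V ∣ (t + DD pr V * s) - t := ⟨s, by ring⟩
    have h3 : ∏ k ∈ V, oo pr k (t + DD pr V * s) = ∏ k ∈ V, oo pr k t :=
      Finset.prod_congr rfl fun k hk => oo_per ((dvd_DD' hk).trans h1)
    show (if un pr V (t + DD pr V * s) then uA (A := A) (∏ k ∈ V, oo pr k (t + DD pr V * s)) else 0) = _
    rw [h3]
    exact if_congr (un_per h1) rfl rfl
  have hfev : ∀ t, f (-t) = f t := by
    intro t
    show (if un pr V (-t) then uA (A := A) (∏ k ∈ V, oo pr k (-t)) else 0) = _
    simp only [oo_neg hp]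
    exact if_congr un_neg rfl rfl
  have hf0 : f 0 = 0 := if_neg fun h => h.not_dvd hVne (dvd_zero _)
  have hfne : ∀ t, f t ≠ 0 → un pr V t := fun t h => by
    by_contra hc
    exact h (if_neg hc)
  have key := sel_indep h2 (DD_odd hp V) hS.per hSu.per hf hfev hf0
    (fun t ht => hS.one t (hfne t ht)) (fun t ht => hSu.one t (hfne t ht))
  refine key.trans ?_
  have hper : Per (pr m * D') (fun t => S' (u * t) * f t) := by
    rw [← hDV]
    intro t s
    have e1 := hSu.per t s
    have e2 := hf t s
    simp only [e1, e2]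
  rw [show SS (DD pr V) (fun t => S' (u * t) * f t) =
    SS (pr m * D') (fun t => S' (u * t) * f t) by rw [hDV]]
  rw [SS_crt hπ0 hD'0 ⟨u, v, huv⟩ hper]
  have hinner : ∀ b : ZI, SS (pr m) (fun c => S' (u * (pr m * b + D' * c)) *
      f (pr m * b + D' * c)) = 0 := by
    intro b
    have e0 : ∀ c, S' (u * (pr m * b + D' * c)) = S' b := by
      intro c
      refine hS'.per.of_dvd ⟨u * c - v * b, ?_⟩
      rw [← hD']
      linear_combination b * huv
    simp only [e0]
    rw [SS_mul hπ0]
    refine mul_eq_zero_of_right _ ?_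
    by_cases hb : un pr (V.erase m) b
    · have hdm : ∀ c, ¬ pr m ∣ c → ¬ pr m ∣ D' * c := by
        intro c hc h
        exact hc (IsCoprime.dvd_of_dvd_mul_left ⟨u, v, huv⟩ h)
      refine SS_even h2 (prim_norm_odd (hp.pp m).prm) ?_ ?_ ?_
      · intro c s
        show f (pr m * b + D' * (c + pr m * s)) = _
        have e : pr m * b + D' * (c + pr m * s) = (pr m * b + D' * c) + DD pr V * s := by
          rw [hDV]; ring
        rw [e, hf]
      · intro c
        -- the value at `pr m * b + D' * c`
        have hval : ∀ c, f (pr m * b + D' * c) = if pr m ∣ c then 0 else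
            uA (oo pr m (D' * c) * ∏ k ∈ V.erase m, oo pr k (pr m * b)) := by
          intro c
          by_cases hc : pr m ∣ c
          · rw [if_pos hc]
            exact if_neg fun h => ((un_crt hp hm b c).1 h).2 hc
          · rw [if_neg hc]
            refine (if_pos ((un_crt hp hm b c).2 ⟨hb, hc⟩)).trans ?_
            congr 1
            rw [← Finset.mul_prod_erase V _ hm]
            congr 1
            · exact oo_per ⟨b, by ring⟩
            · refine Finset.prod_congr rfl fun k hk => ?_
              exact oo_per (by rw [add_sub_cancel_left]; exact (dvd_DD' hk).mul_right c)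
        show f (pr m * b + D' * -c) = f (pr m * b + D' * c)
        rw [hval, hval]
        have e1 : D' * -c = -(D' * c) := by ring
        rw [e1, oo_neg hp]
        exact if_congr dvd_neg rfl rfl
      · exact if_neg fun h => ((un_crt hp hm b 0).1 h).2 (dvd_zero _)
    · have e1 : ∀ c, f (pr m * b + D' * c) = 0 := fun c =>
        if_neg fun h => hb ((un_crt hp hm b c).1 h).1
      simp only [e1]
      exact SS_zero _
  simp only [hinner]
  exact SS_zero _

/-- **the sums over half systems** -/
theorem psi : Pool.Agent.D0H10.Q4.S_PSI := by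
  intro A _ h2 ι _ pr hp V hV F hF H hH
  classical
  have hD0 : DD pr V ≠ 0 := DD_ne hp _
  let mk := Ideal.Quotient.mk (Ideal.span {DD pr V})
  let S : ZI → A := fun t => if mk t ∈ H then 1 else 0
  have hS : Sl pr V S := by
    constructor
    · intro t s
      have h1 : mk (t + DD pr V * s) = mk t := (mk_eq_mk _ _).2 ⟨s, by ring⟩
      show (if mk (t + DD pr V * s) ∈ H then (1 : A) else 0) = _
      rw [h1]
    · intro t ht
      have h0 : mk t ≠ 0 := fun h => ht.not_dvd hV ((mk_eq_zero _).1 h)
      have h1 := hH.2 (mk t) h0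
      have h3 : mk (-t) = -mk t := map_neg _ _
      show (if mk t ∈ H then (1 : A) else 0) + (if mk (-t) ∈ H then (1 : A) else 0) = 1
      rw [h3]
      by_cases h : mk t ∈ H
      · rw [if_pos h, if_neg (h1.1 h), add_zero]
      · have h4 : -mk t ∈ H := by
          by_contra h5
          exact h (h1.2 h5)
        rw [if_neg h, if_pos h4, zero_add]
  -- the sum over `H`
  have e1 : ∀ f : ZI → A, ∑ᶠ q ∈ H, f q.out = SS (DD pr V) (fun t => S t * f t) := by
    intro f
    unfold SS
    rw [finsum_mem_def]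
    refine finsum_congr fun q => ?_
    have h1 : mk q.out = q := Ideal.Quotient.mk_out q
    show Set.indicator H (fun q => f q.out) q = (if mk q.out ∈ H then (1 : A) else 0) * f q.out
    rw [h1, Set.indicator_apply]
    split_ifs <;> simp
  have e2 := e1 (fun t => if ∀ i ∈ V, ¬ pr i ∣ t then uA (∏ i ∈ V, oo pr i t) +
      ∑ j ∈ V, uA (wt pr j * ∏ k ∈ V.erase j, oo pr k t) * F (DD pr V) t else 0)
  refine Eq.trans ?_ (e2.trans ?_)
  · refine finsum_congr fun q => finsum_congr fun _ => ?_
    exact if_congr Iff.rfl rfl rfl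
  have e3 : (fun t => S t * (if ∀ i ∈ V, ¬ pr i ∣ t then uA (∏ i ∈ V, oo pr i t) +
      ∑ j ∈ V, uA (wt pr j * ∏ k ∈ V.erase j, oo pr k t) * F (DD pr V) t else 0)) =
      fun t => S t * (if un pr V t then uA (∏ k ∈ V, oo pr k t) else 0) +
        ∑ j ∈ V, uA (wt pr j) * (S t * gf pr F V {j} t) := by
    funext t
    by_cases ht : un pr V t
    · have ht' : ∀ i ∈ V, ¬ pr i ∣ t := ht
      rw [if_pos ht', if_pos ht, mul_add, Finset.mul_sum]
      congr 1
      refine Finset.sum_congr rfl fun j _ => ?_
      unfold gf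
      rw [if_pos ht, Finset.sdiff_singleton_eq_erase, ← uR_apply h2, map_mul, uR_apply, uR_apply]
      ring
    · have ht' : ¬ ∀ i ∈ V, ¬ pr i ∣ t := ht
      rw [if_neg ht', if_neg ht, mul_zero, zero_add]
      symm
      refine Finset.sum_eq_zero fun j _ => ?_
      unfold gf
      rw [if_neg ht, mul_zero, mul_zero]
  rw [e3, SS_add hD0, SS_sum hD0]
  simp only [SS_mul hD0]
  obtain ⟨n, hn⟩ : ∃ n, V.card = n + 1 := ⟨V.card - 1, by have := hV.card_pos; omega⟩
  have e4 : ∀ j ∈ V, uA (wt pr j) * SS (DD pr V) (fun t => S t * gf pr F V {j} t) =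
      uR h2 (∑ b ∈ V, wt pr j * Qp (Y699.em pr) n V j b * wt pr b) := by
    intro j hj
    have h := Psi_path h2 hp hF n V j hj hn S hS
    unfold Psi at h
    rw [h, map_sum, Finset.mul_sum]
    refine Finset.sum_congr rfl fun b _ => ?_
    rw [map_mul, map_mul, uR_apply, uR_apply, uR_apply, mul_assoc]
  rw [Finset.sum_congr rfl e4, ← map_sum]
  cases n with
  | zero =>
    obtain ⟨m, rfl⟩ := Finset.card_eq_one.1 hn
    rw [first_one h2 hp m hS]
    rw [Finset.sum_singleton, Finset.sum_singleton, Qp, if_pos ⟨rfl, rfl⟩, ← uR_apply h2, ← map_add]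
    have h3 : wt pr m + wt pr m * 1 * wt pr m = 0 := by
      rcases zm (wt pr m) with h | h <;> rw [h] <;> decide
    rw [h3, map_zero]
  | succ n =>
    obtain ⟨m, hm⟩ := hV
    have hne : (V.erase m).Nonempty := Finset.card_pos.1 (by
      rw [Finset.card_erase_of_mem hm]; omega)
    rw [first_two h2 hp hm hne hS, zero_add]
    have h3 : (2 : ZMod 2) = 0 := by decide
    have hsy : ∀ i j, Y699.em pr i j = Y699.em pr j i := fun i j => by
      unfold Y699.em
      rw [qr_rec (hp.pp i) (hp.pp j)]
    rw [path_zero h3 hsy (wt pr) n V, map_zero]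

end Pool.Agent.D0H15.Q4
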