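import Mathlib

/-!
Project Q4, module A9: sums over Hamiltonian paths.
-/

set_option autoImplicit false

open Finset

namespace Pool.Agent.D0H15.Q4

variable {ι R : Type} [DecidableEq ι] [CommRing R]

/-- the sum over the Hamiltonian paths of `V` from `a` to `b`, `V` with `n + 1` elements -/
def Qp (A : ι → ι → R) : ℕ → Finset ι → ι → ι → R
  | 0, V, a, b => if V = {a} ∧ b = a then 1 else 0
  | n + 1, V, a, b => if a ∈ V then ∑ k ∈ V.erase a, A a k * Qp A n (V.erase a) k b else 0

theorem Qp_left (A : ι → ι → R) (n : ℕ) (V : Finset ι) (a b : ι) (h : a ∉ V) : Qp A n V a b = 0 := by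
  cases n with
  | zero =>
    simp only [Qp]
    rw [if_neg]
    rintro ⟨h1, -⟩
    exact h (h1 ▸ Finset.mem_singleton_self a)
  | succ n => simp only [Qp]; rw [if_neg h]

theorem Qp_right (A : ι → ι → R) (n : ℕ) : ∀ (V : Finset ι) (a b : ι), b ∉ V → Qp A n V a b = 0 := by
  induction n with
  | zero =>
    intro V a b h
    simp only [Qp]
    rw [if_neg]
    rintro ⟨h1, h2⟩
    exact h (by rw [h1, h2]; exact Finset.mem_singleton_self a)
  | succ n ih =>
    intro V a b h
    simp only [Qp]
    split_ifs with h1
    · refine Finset.sum_eq_zero fun k _ => ?_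
      rw [ih _ _ _ (fun h' => h (Finset.mem_of_mem_erase h')), mul_zero]
    · rfl

/-- the decomposition by the last step -/
theorem Qp_last (A : ι → ι → R) (n : ℕ) : ∀ (V : Finset ι) (a b : ι), Qp A (n + 1) V a b =
    if b ∈ V then ∑ k ∈ V.erase b, Qp A n (V.erase b) a k * A k b else 0 := by
  induction n with
  | zero =>
    intro V a b
    simp only [Qp]
    by_cases hab : a = b
    · subst hab
      have e1 : ∀ k ∈ V.erase a, A a k * (if V.erase a = {k} ∧ a = k then (1 : R) else 0) = 0 := by
        intro k hk
        rw [if_neg, mul_zero]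
        rintro ⟨-, h2⟩
        exact (Finset.mem_erase.1 hk).1 h2.symm
      have e2 : ∀ k ∈ V.erase a, (if V.erase a = {a} ∧ k = a then (1 : R) else 0) * A k a = 0 := by
        intro k hk
        rw [if_neg, zero_mul]
        rintro ⟨-, h2⟩
        exact (Finset.mem_erase.1 hk).1 h2
      rw [Finset.sum_eq_zero e1, Finset.sum_eq_zero e2]
    · by_cases hV : V = {a, b}
      · subst hV
        have h1 : ({a, b} : Finset ι).erase a = {b} := by
          ext x; simp only [Finset.mem_erase, Finset.mem_insert, Finset.mem_singleton]
          constructor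
          · rintro ⟨h, h' | h'⟩
            · exact absurd h' h
            · exact h'
          · rintro rfl
            exact ⟨fun h => hab h.symm, Or.inr rfl⟩
        have h2 : ({a, b} : Finset ι).erase b = {a} := by
          ext x; simp only [Finset.mem_erase, Finset.mem_insert, Finset.mem_singleton]
          constructor
          · rintro ⟨h, h' | h'⟩
            · exact h'
            · exact absurd h' h
          · rintro rfl
            exact ⟨hab, Or.inl rfl⟩
        rw [if_pos (by simp), if_pos (by simp), h1, h2]
        simp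
      · have e1 : ∀ k ∈ V.erase a, a ∈ V → A a k * (if V.erase a = {k} ∧ b = k then (1 : R) else 0) = 0 := by
          intro k hk ha
          rw [if_neg, mul_zero]
          rintro ⟨h1, rfl⟩
          exact hV (by rw [← Finset.insert_erase ha, h1])
        have e2 : ∀ k ∈ V.erase b, b ∈ V → (if V.erase b = {a} ∧ k = a then (1 : R) else 0) * A k b = 0 := by
          intro k hk hb
          rw [if_neg, zero_mul]
          rintro ⟨h1, rfl⟩
          exact hV (by rw [← Finset.insert_erase hb, h1, Finset.pair_comm])
        by_cases ha : a ∈ V <;> by_cases hb : b ∈ V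
        · rw [if_pos ha, if_pos hb, Finset.sum_eq_zero fun k hk => e1 k hk ha,
            Finset.sum_eq_zero fun k hk => e2 k hk hb]
        · rw [if_pos ha, if_neg hb, Finset.sum_eq_zero fun k hk => e1 k hk ha]
        · rw [if_neg ha, if_pos hb, Finset.sum_eq_zero fun k hk => e2 k hk hb]
        · rw [if_neg ha, if_neg hb]
  | succ n ih =>
    intro V a b
    rw [Qp]
    by_cases hab : a = b
    · subst hab
      by_cases ha : a ∈ V
      · rw [if_pos ha, if_pos ha]
        have e1 : ∑ k ∈ V.erase a, A a k * Qp A (n + 1) (V.erase a) k a = 0 :=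
          Finset.sum_eq_zero fun k _ => by
            rw [Qp_right A _ _ _ _ (Finset.notMem_erase a V), mul_zero]
        have e2 : ∑ k ∈ V.erase a, Qp A (n + 1) (V.erase a) a k * A k a = 0 :=
          Finset.sum_eq_zero fun k _ => by
            rw [Qp_left A _ _ _ _ (Finset.notMem_erase a V), zero_mul]
        rw [e1, e2]
      · rw [if_neg ha, if_neg ha]
    · by_cases ha : a ∈ V <;> by_cases hb : b ∈ V
      · rw [if_pos ha, if_pos hb]
        have hb' : b ∈ V.erase a := Finset.mem_erase.2 ⟨fun h => hab h.symm, hb⟩
        have ha' : a ∈ V.erase b := Finset.mem_erase.2 ⟨hab, ha⟩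
        have e1 : ∀ k ∈ V.erase a, A a k * Qp A (n + 1) (V.erase a) k b =
            ∑ l ∈ (V.erase a).erase b, A a k * (Qp A n ((V.erase a).erase b) k l * A l b) := by
          intro k _
          rw [ih, if_pos hb', Finset.mul_sum]
        have e2 : ∀ l ∈ V.erase b, Qp A (n + 1) (V.erase b) a l * A l b =
            ∑ k ∈ (V.erase b).erase a, A a k * Qp A n ((V.erase b).erase a) k l * A l b := by
          intro l _
          rw [Qp, if_pos ha', Finset.sum_mul]
        rw [Finset.sum_congr rfl e1, Finset.sum_congr rfl e2, Finset.sum_comm]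
        have hcomm : (V.erase b).erase a = (V.erase a).erase b := Finset.erase_right_comm
        rw [hcomm]
        -- `l` runs through `V.erase b` or `(V.erase a).erase b`
        have hl : (V.erase a).erase b ⊆ V.erase b := by
          rw [← hcomm]
          exact Finset.erase_subset _ _
        rw [← Finset.sum_subset hl]
        · refine Finset.sum_congr rfl fun l _ => ?_
          -- `k` runs through `V.erase a` or `(V.erase a).erase b`
          symm
          have hk : (V.erase a).erase b ⊆ V.erase a := Finset.erase_subset _ _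
          have e3 : ∀ k, A a k * (Qp A n ((V.erase a).erase b) k l * A l b) =
              A a k * Qp A n ((V.erase a).erase b) k l * A l b := fun k => by ring
          simp only [e3]
          refine Finset.sum_subset hk fun k _ hk' => ?_
          rw [Qp_left A _ _ _ _ hk', mul_zero, zero_mul]
        · intro l _ hl'
          refine Finset.sum_eq_zero fun k _ => ?_
          rw [Qp_right A _ _ _ _ hl', mul_zero, zero_mul]
      · rw [if_pos ha, if_neg hb]
        refine Finset.sum_eq_zero fun k _ => ?_
        rw [Qp_right A _ _ _ _ (fun h => hb (Finset.mem_of_mem_erase h)), mul_zero]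
      · rw [if_neg ha, if_pos hb]
        symm
        refine Finset.sum_eq_zero fun k _ => ?_
        rw [Qp_left A _ _ _ _ (fun h => ha (Finset.mem_of_mem_erase h)), zero_mul]
      · rw [if_neg ha, if_neg hb]

theorem Qp_symm {A : ι → ι → R} (hA : ∀ i j, A i j = A j i) (n : ℕ) : ∀ (V : Finset ι) (a b : ι),
    Qp A n V a b = Qp A n V b a := by
  induction n with
  | zero =>
    intro V a b
    simp only [Qp]
    refine if_congr ?_ rfl rfl
    constructor <;> rintro ⟨h1, h2⟩ <;> subst h2 <;> exact ⟨h1, rfl⟩
  | succ n ih =>
    intro V a b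
    rw [Qp_last, Qp]
    by_cases hb : b ∈ V
    · rw [if_pos hb, if_pos hb]
      refine Finset.sum_congr rfl fun k _ => ?_
      rw [ih, hA k b, mul_comm]
    · rw [if_neg hb, if_neg hb]

theorem Qp_diag (A : ι → ι → R) (n : ℕ) (V : Finset ι) (a : ι) : Qp A (n + 1) V a a = 0 := by
  rw [Qp]
  split_ifs with h
  · refine Finset.sum_eq_zero fun k _ => ?_
    rw [Qp_right A _ _ _ _ (Finset.notMem_erase a V), mul_zero]
  · rfl

/-- a symmetric form with zero diagonal in characteristic two -/
theorem sum_symm (h2 : (2 : R) = 0) (V : Finset ι) (M : ι → ι → R) (hM : ∀ i j, M i j = M j i)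
    (hd : ∀ i, M i i = 0) : ∑ i ∈ V, ∑ j ∈ V, M i j = 0 := by
  induction V using Finset.induction_on with
  | empty => simp
  | insert a V ha ih =>
    rw [Finset.sum_insert ha]
    have e : ∀ i ∈ V, ∑ j ∈ insert a V, M i j = M i a + ∑ j ∈ V, M i j := fun i _ =>
      Finset.sum_insert ha
    rw [Finset.sum_congr rfl e, Finset.sum_add_distrib, ih, Finset.sum_insert ha, hd]
    have e2 : ∑ i ∈ V, M i a = ∑ j ∈ V, M a j := Finset.sum_congr rfl fun i _ => hM i a
    rw [e2]
    linear_combination (∑ j ∈ V, M a j) * h2

/-- the sums over the Hamiltonian paths with weights at both ends -/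
theorem path_zero (h2 : (2 : R) = 0) {A : ι → ι → R} (hA : ∀ i j, A i j = A j i) (t : ι → R) (n : ℕ)
    (V : Finset ι) : ∑ a ∈ V, ∑ b ∈ V, t a * Qp A (n + 1) V a b * t b = 0 := by
  refine sum_symm h2 V (fun a b => t a * Qp A (n + 1) V a b * t b) ?_ ?_
  · intro i j
    simp only [Qp_symm hA (n + 1) V i j]
    ring
  · intro i
    simp only [Qp_diag, mul_zero, zero_mul]

end Pool.Agent.D0H15.Q4
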