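import Pool.Agent.D0H15.Q4.Psi

/-!
Project Q4, module A9: the recursion.
-/

set_option autoImplicit false

open Finset

namespace Pool.Agent.D0H15.Q4

open H385 (ZI RQ im1 nrm)
open Pool.Agent.Y699
open Pool.Agent.D0H10.Q4 (oo uA Dst)
open Pool.Agent.H304R2.EC.A1 (prim prim_mul prim_norm_odd prim_ne_zero)

variable {A : Type} [CommRing A] {ι : Type} [DecidableEq ι] {pr : ι → ZI} {F : ZI → ZI → A}

/-- the inverse of `pr m` modulo the other primes acts on the units -/
theorem un_inv (hp : PF pr) {V : Finset ι} {m : ι} {u v : ZI} (huv : u * pr m + v * DD pr (V.erase m) = 1)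
    {t : ZI} (ht : un pr (V.erase m) t) : un pr (V.erase m) (u * t) := by
  intro k hk h
  rcases (hp.pp k).pr.dvd_or_dvd h with h1 | h1
  · have h2 : pr k ∣ 1 := by
      rw [← huv]
      exact dvd_add (h1.mul_right _) ((dvd_DD' hk).mul_left _)
    exact (hp.pp k).pr.not_isUnit (isUnit_of_dvd_one h2)
  · exact ht k hk h1

theorem un_mul (hp : PF pr) {V : Finset ι} {m : ι} {b : ZI} :
    un pr (V.erase m) (pr m * b) ↔ un pr (V.erase m) b := by
  refine forall₂_congr fun k hk => not_congr ?_
  exact PF.dvd_mul hp (Finset.ne_of_mem_erase hk).symm b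

open Classical in
/-- **the first step of the recursion** -/
theorem Psi_rec (h2 : (2 : A) = 0) (hp : PF pr) (hF : Dst F) {V W : Finset ι} {m : ι} (hm : m ∈ V)
    (hV : (V.erase m).Nonempty) (hW : m ∈ W) {S S' : ZI → A} (hS : Sl pr V S)
    (hS' : Sl pr (V.erase m) S') :
    Psi pr F V W S = Psi pr F (V.erase m) (W.erase m) S' +
      SS (DD pr (V.erase m)) (fun b => S' b * (if un pr (V.erase m) b then
        uA (∏ k ∈ V \ W, (Y699.em pr m k + oo pr k b)) * F (DD pr (V.erase m)) b else 0)) := by
  set D' := DD pr (V.erase m) with hD'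
  have hD'0 : D' ≠ 0 := DD_ne hp _
  have hπ0 : pr m ≠ 0 := (hp.pp m).ne
  have hcop : IsCoprime (pr m) D' := cop_erase hp V m
  obtain ⟨u, v, huv⟩ := hcop
  have hDV : DD pr V = pr m * D' := DD_erase hm
  have hVne : V.Nonempty := ⟨m, hm⟩
  have hVW : V.erase m \ W.erase m = V \ W := by
    ext k
    simp only [Finset.mem_sdiff, Finset.mem_erase]
    constructor
    · rintro ⟨⟨h1, h3⟩, h4⟩
      exact ⟨h3, fun h => h4 ⟨h1, h⟩⟩
    · rintro ⟨h1, h3⟩
      exact ⟨⟨fun h => h3 (h ▸ hW), h1⟩, fun h => h3 h.2⟩
  -- the selection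
  have hSu : Sl pr V (fun t => S' (u * t)) := by
    constructor
    · intro t s
      show S' (u * (t + DD pr V * s)) = _
      rw [hDV]
      have e : u * (t + pr m * D' * s) = u * t + D' * (u * pr m * s) := by ring
      rw [e, hS'.per]
    · intro t ht
      have h1 : un pr (V.erase m) t := fun k hk => ht k (Finset.mem_of_mem_erase hk)
      have h3 := hS'.one (u * t) (un_inv hp huv h1)
      show S' (u * t) + S' (u * -t) = 1
      rw [mul_neg]
      exact h3
  have hSu' : Sl pr (V.erase m) (fun t => S' (u * t)) := by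
    constructor
    · intro t s
      show S' (u * (t + D' * s)) = _
      have e : u * (t + D' * s) = u * t + D' * (u * s) := by ring
      rw [e]
      exact hS'.per _ _
    · intro t ht
      have h3 := hS'.one (u * t) (un_inv hp huv ht)
      show S' (u * t) + S' (u * -t) = 1
      rw [mul_neg]
      exact h3
  rw [Psi_indep h2 hp hF hVne W hS hSu]
  unfold Psi
  -- the Chinese remainder theorem
  have hper : Per (pr m * D') (fun t => S' (u * t) * gf pr F V W t) := by
    rw [← hDV]
    intro t s
    have e1 := hSu.per t s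
    have e2 := gf_per (pr := pr) hF V W t s
    simp only [e1, e2]
  rw [show SS (DD pr V) (fun t => S' (u * t) * gf pr F V W t) =
    SS (pr m * D') (fun t => S' (u * t) * gf pr F V W t) by rw [hDV]]
  rw [SS_crt hπ0 hD'0 ⟨u, v, huv⟩ hper]
  -- the inner sum
  have hinner : ∀ b : ZI, SS (pr m) (fun c => S' (u * (pr m * b + D' * c)) *
      gf pr F V W (pr m * b + D' * c)) = S' b * (if un pr (V.erase m) b then
        uA (∏ k ∈ V \ W, (Y699.em pr m k + oo pr k b)) * (F D' (pr m * b) - F D' b) else 0) := by
    intro b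
    have e0 : ∀ c, S' (u * (pr m * b + D' * c)) = S' b := by
      intro c
      refine hS'.per.of_dvd ⟨u * c - v * b, ?_⟩
      rw [← hD']
      linear_combination b * huv
    by_cases hb : un pr (V.erase m) b
    · rw [if_pos hb]
      have e1 : ∀ c, gf pr F V W (pr m * b + D' * c) =
          uA (∏ k ∈ V \ W, (Y699.em pr m k + oo pr k b)) *
            (if pr m ∣ c then 0 else F (pr m * D') (pr m * b + D' * c)) := by
        intro c
        unfold gf
        by_cases hc : pr m ∣ c
        · rw [if_pos hc, mul_zero, if_neg]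
          intro h
          exact ((un_crt hp hm b c).1 h).2 hc
        · rw [if_neg hc, if_pos ((un_crt hp hm b c).2 ⟨hb, hc⟩), hDV]
          congr 2
          refine Finset.prod_congr rfl fun k hk => ?_
          have hkV : k ∈ V.erase m := by
            rw [← hVW, Finset.mem_sdiff] at hk
            exact hk.1
          rw [oo_per (a := pr m * b + D' * c) (b := pr m * b) (by
            rw [add_sub_cancel_left]; exact (dvd_DD' hkV).mul_right c)]
          exact oo_mul hp (Finset.ne_of_mem_erase hkV).symm (hb k hkV)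
      simp only [e0, e1]
      rw [SS_mul hπ0, SS_mul hπ0]
      congr 2
      have hFper : Per (pr m) (fun c => F (pr m * D') (pr m * b + D' * c)) := by
        intro c s
        show F (pr m * D') (pr m * b + D' * (c + pr m * s)) = _
        have e : pr m * b + D' * (c + pr m * s) = (pr m * b + D' * c) + pr m * D' * s := by ring
        rw [e, hF.per]
      rw [SS_ne hπ0 hFper]
      have e3 := hF.dist (pr m) D' b (hp.pp m) (DD_prim hp _) ⟨u, v, huv⟩ (hb.not_dvd hV)
      unfold SS
      rw [e3, mul_zero, add_zero, hF.scal (pr m) D' b (hp.pp m).odd]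
    · rw [if_neg hb, mul_zero]
      have e1 : ∀ c, gf pr F V W (pr m * b + D' * c) = 0 := by
        intro c
        unfold gf
        rw [if_neg]
        intro h
        exact hb ((un_crt hp hm b c).1 h).1
      simp only [e1, mul_zero]
      exact SS_zero _
  simp only [hinner]
  -- the two parts
  have hsplit : ∀ b : ZI, S' b * (if un pr (V.erase m) b then
        uA (∏ k ∈ V \ W, (Y699.em pr m k + oo pr k b)) * (F D' (pr m * b) - F D' b) else 0) =
      S' (u * (pr m * b)) * gf pr F (V.erase m) (W.erase m) (pr m * b) +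
      S' b * (if un pr (V.erase m) b then
        uA (∏ k ∈ V \ W, (Y699.em pr m k + oo pr k b)) * F D' b else 0) := by
    intro b
    have e0 : S' (u * (pr m * b)) = S' b := by
      refine hS'.per.of_dvd ⟨-(v * b), ?_⟩
      rw [← hD']
      linear_combination b * huv
    rw [e0]
    unfold gf
    by_cases hb : un pr (V.erase m) b
    · rw [if_pos hb, if_pos hb, if_pos ((un_mul hp).2 hb), hVW]
      have e4 : ∏ k ∈ V \ W, oo pr k (pr m * b) = ∏ k ∈ V \ W, (Y699.em pr m k + oo pr k b) := by
        refine Finset.prod_congr rfl fun k hk => ?_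
        have hkV : k ∈ V.erase m := by
          rw [← hVW, Finset.mem_sdiff] at hk
          exact hk.1
        exact oo_mul hp (Finset.ne_of_mem_erase hkV).symm (hb k hkV)
      rw [e4, ← hD']
      have e5 : -F D' b = F D' b := by
        have : F D' b + F D' b = 0 := by rw [← two_mul, h2, zero_mul]
        exact neg_eq_of_add_eq_zero_left this
      rw [sub_eq_add_neg, e5]
      ring
    · rw [if_neg hb, if_neg hb, if_neg (fun h => hb ((un_mul hp).1 h))]
      ring
  simp only [hsplit]
  rw [SS_add hD'0]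
  congr 1
  have hper' : Per D' (fun t => S' (u * t) * gf pr F (V.erase m) (W.erase m) t) := by
    intro t s
    have e1 := hSu'.per t s
    have e2 := gf_per (pr := pr) hF (V.erase m) (W.erase m) t s
    simp only [← hD'] at e1 e2
    simp only [e1, e2]
  rw [SS_unit hD'0 ⟨u, v, huv⟩ hper']
  exact Psi_indep h2 hp hF hV (W.erase m) hSu' hS'

/-- **the recursion** -/
theorem Psi_exp (h2 : (2 : A) = 0) (hp : PF pr) (hF : Dst F) {V W : Finset ι} {m : ι} (hm : m ∈ V)
    (hV : (V.erase m).Nonempty) (hW : m ∈ W) {S S' : ZI → A} (hS : Sl pr V S)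
    (hS' : Sl pr (V.erase m) S') :
    Psi pr F V W S = Psi pr F (V.erase m) (W.erase m) S' + ∑ U ∈ (V \ W).powerset,
      uA (∏ k ∈ U, Y699.em pr m k) * Psi pr F (V.erase m) (W.erase m ∪ U) S' := by
  classical
  rw [Psi_rec h2 hp hF hm hV hW hS hS']
  congr 1
  have hD'0 : DD pr (V.erase m) ≠ 0 := DD_ne hp _
  unfold Psi
  simp only [← SS_mul hD'0]
  rw [← SS_sum hD'0]
  congr 1
  funext b
  by_cases hb : un pr (V.erase m) b
  · rw [if_pos hb, Finset.prod_add, ← uR_apply h2, map_sum, Finset.sum_mul, Finset.mul_sum]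
    refine Finset.sum_congr rfl fun U hU => ?_
    rw [Finset.mem_powerset] at hU
    unfold gf
    rw [if_pos hb, map_mul]
    have e : V.erase m \ (W.erase m ∪ U) = (V \ W) \ U := by
      ext k
      simp only [Finset.mem_sdiff, Finset.mem_erase, Finset.mem_union, not_or]
      constructor
      · rintro ⟨⟨h1, h3⟩, h4, h5⟩
        exact ⟨⟨h3, fun h => h4 ⟨h1, h⟩⟩, h5⟩
      · rintro ⟨⟨h1, h3⟩, h4⟩
        exact ⟨⟨fun h => h3 (h ▸ hW), h1⟩, fun h => h3 h.2, h4⟩
    rw [e, uR_apply, uR_apply]
    ring
  · rw [if_neg hb, mul_zero]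
    symm
    refine Finset.sum_eq_zero fun U _ => ?_
    unfold gf
    rw [if_neg hb, mul_zero, mul_zero]

/-- the sums with two omitted factors vanish -/
theorem Psi_two (h2 : (2 : A) = 0) (hp : PF pr) (hF : Dst F) (V : Finset ι) :
    ∀ W ⊆ V, 2 ≤ W.card → ∀ S : ZI → A, Sl pr V S → Psi pr F V W S = 0 := by
  induction V using Finset.strongInduction with
  | H V ih =>
    intro W hWV hW S hS
    obtain ⟨m, hm⟩ : W.Nonempty := Finset.card_pos.1 (by omega)
    have hc : (W.erase m).card = W.card - 1 := Finset.card_erase_of_mem hm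
    have hWe : (W.erase m).Nonempty := Finset.card_pos.1 (by omega)
    have hsub : W.erase m ⊆ V.erase m := Finset.erase_subset_erase m hWV
    have hV : (V.erase m).Nonempty := hWe.mono hsub
    obtain ⟨S', hS'⟩ := exists_Sl (A := A) hp hV
    rw [Psi_exp h2 hp hF (hWV hm) hV hm hS hS']
    have hmem : (∅ : Finset ι) ∈ (V \ W).powerset := Finset.empty_mem_powerset _
    rw [← Finset.add_sum_erase _ _ hmem]
    have hz : ∑ U ∈ (V \ W).powerset.erase ∅, uA (∏ k ∈ U, Y699.em pr m k) *
        Psi pr F (V.erase m) (W.erase m ∪ U) S' = 0 := by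
      refine Finset.sum_eq_zero fun U hU => ?_
      rw [Finset.mem_erase, Finset.mem_powerset] at hU
      have hUne : U.Nonempty := Finset.nonempty_iff_ne_empty.2 hU.1
      rw [ih (V.erase m) (Finset.erase_ssubset (hWV hm)) (W.erase m ∪ U) ?_ ?_ S' hS', mul_zero]
      · refine Finset.union_subset hsub fun k hk => ?_
        have := Finset.mem_sdiff.1 (hU.2 hk)
        exact Finset.mem_erase.2 ⟨fun h => this.2 (h ▸ hm), this.1⟩
      · have hdis : Disjoint (W.erase m) U := by
          rw [Finset.disjoint_left]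
          intro k hk hk'
          exact (Finset.mem_sdiff.1 (hU.2 hk')).2 (Finset.mem_of_mem_erase hk)
        rw [Finset.card_union_of_disjoint hdis, hc]
        have := hUne.card_pos
        omega
    rw [hz, add_zero, Finset.prod_empty, Finset.union_empty, ← uR_apply h2, map_one, one_mul, ← two_mul, h2,
      zero_mul]

/-- the sums with one omitted factor -/
theorem Psi_one (h2 : (2 : A) = 0) (hp : PF pr) (hF : Dst F) {V : Finset ι} {m : ι} (hm : m ∈ V)
    (hV : (V.erase m).Nonempty) {S S' : ZI → A} (hS : Sl pr V S) (hS' : Sl pr (V.erase m) S') :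
    Psi pr F V {m} S = ∑ k ∈ V.erase m, uA (Y699.em pr m k) * Psi pr F (V.erase m) {k} S' := by
  rw [Psi_exp h2 hp hF hm hV (Finset.mem_singleton_self m) hS hS']
  have e1 : ({m} : Finset ι).erase m = ∅ := by simp
  have e2 : V \ {m} = V.erase m := Finset.sdiff_singleton_eq_erase m V
  rw [e1, e2]
  simp only [Finset.empty_union]
  have hmem : (∅ : Finset ι) ∈ (V.erase m).powerset := Finset.empty_mem_powerset _
  rw [← Finset.add_sum_erase _ _ hmem, Finset.prod_empty, ← uR_apply h2 1, map_one, one_mul, ← add_assoc,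
    ← two_mul, h2, zero_mul, zero_add]
  -- only the singletons remain
  have hsub : (V.erase m).map ⟨fun k => ({k} : Finset ι), Finset.singleton_injective⟩ ⊆
      (V.erase m).powerset.erase ∅ := by
    intro U hU
    rw [Finset.mem_map] at hU
    obtain ⟨k, hk, rfl⟩ := hU
    rw [Finset.mem_erase, Finset.mem_powerset]
    exact ⟨Finset.singleton_ne_empty k, Finset.singleton_subset_iff.2 hk⟩
  rw [← Finset.sum_subset hsub, Finset.sum_map]
  · refine Finset.sum_congr rfl fun k _ => ?_
    show uA (∏ j ∈ {k}, Y699.em pr m j) * _ = _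
    rw [Finset.prod_singleton]
    rfl
  · intro U hU hU'
    rw [Finset.mem_erase, Finset.mem_powerset] at hU
    rw [Psi_two h2 hp hF _ U hU.2 ?_ S' hS', mul_zero]
    have h0 : U.card ≠ 0 := fun h => hU.1 (Finset.card_eq_zero.1 h)
    have h1 : U.card ≠ 1 := by
      intro h
      obtain ⟨k, rfl⟩ := Finset.card_eq_one.1 h
      apply hU'
      rw [Finset.mem_map]
      exact ⟨k, Finset.singleton_subset_iff.1 hU.2, rfl⟩
    omega

end Pool.Agent.D0H15.Q4
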