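import Pool.Agent.D0H10.Q4.StmA
import Pool.Agent.D0H15.Q4.Rec
import Pool.Agent.D0H15.Q4.Path

/-!
Project Q4, module A9: the sums over half systems.
-/

set_option autoImplicit false

open Finset

namespace Pool.Agent.D0H15.Q4

open H385 (ZI RQ im1 nrm)
open Pool.Agent.Y699
open Pool.Agent.D0H10.Q4 (oo uA Dst Half)
open Pool.Agent.H304R2.EC.A1 (prim prim_mul prim_norm_odd prim_ne_zero)

variable {A : Type} [CommRing A] {ι : Type} [DecidableEq ι] {pr : ι → ZI} {F : ZI → ZI → A}

theorem im_sq : (im1 : ZI) * im1 = -1 := by decide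

theorem im_dvd {p t : ZI} : p ∣ im1 * t ↔ p ∣ t := by
  constructor
  · intro h
    have h1 := h.mul_left im1
    rw [← mul_assoc, im_sq, neg_one_mul] at h1
    exact dvd_neg.1 h1
  · exact fun h => h.mul_left _

theorem not_dvd_unit' {p u w : ZI} (hp : Prime p) (h : u * w = 1) : ¬ p ∣ u := fun h' =>
  hp.not_isUnit (isUnit_of_dvd_one (h ▸ h'.mul_right w))

/-- a system of representatives for the classes up to units -/
theorem exists_quarter (A : Type) [CommRing A] (h2 : (2 : A) = 0) {p : ZI} (hp : PP p) : ∃ R : ZI → A, Per p R ∧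
    (∀ t, ¬ p ∣ t → R t + R (im1 * t) + (R (-t) + R (im1 * -t)) = 1) ∧
    SS p (fun t => (open Classical in if p ∣ t then 0 else R t)) = uA (if p.norm % 8 = 5 then 1 else 0) := by
  classical
  have hfin := fin_RQ hp
  let _ := Fintype.ofFinite (RQ p)
  let e := Finite.equivFin (RQ p)
  let mk := Ideal.Quotient.mk (Ideal.span {p})
  let P : ZI → Prop := fun t => e (mk t) < e (mk (im1 * t)) ∧ e (mk t) < e (mk (-t)) ∧
    e (mk t) < e (mk (im1 * -t))
  have hmk : ∀ t s, mk (t + p * s) = mk t := fun t s => (mk_eq_mk _ _).2 ⟨s, by ring⟩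
  have hP : ∀ t s, P (t + p * s) ↔ P t := by
    intro t s
    have e1 := hmk t s
    have e2 : mk (im1 * (t + p * s)) = mk (im1 * t) := by
      rw [show im1 * (t + p * s) = im1 * t + p * (im1 * s) by ring]; exact hmk _ _
    have e3 : mk (-(t + p * s)) = mk (-t) := by
      rw [show -(t + p * s) = -t + p * (-s) by ring]; exact hmk _ _
    have e4 : mk (im1 * -(t + p * s)) = mk (im1 * -t) := by
      rw [show im1 * -(t + p * s) = im1 * -t + p * (-(im1 * s)) by ring]; exact hmk _ _
    simp only [P, e1, e2, e3, e4]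
  -- exactly one of the four
  have hfour : ∀ t, ¬ p ∣ t → ((if P t then (1 : ℤ) else 0) + (if P (im1 * t) then 1 else 0) +
      ((if P (-t) then 1 else 0) + (if P (im1 * -t) then 1 else 0)) = 1) := by
    intro t ht
    have hne : ∀ a b : ZI, ¬ p ∣ a - b → e (mk a) ≠ e (mk b) := fun a b h h' =>
      h ((mk_eq_mk _ _).1 (e.injective h'))
    have hu : ∀ c : ZI, ¬ p ∣ c → ¬ p ∣ c * t := fun c hc h => (hp.pr.dvd_or_dvd h).elim hc ht
    have h1i : ¬ p ∣ (1 - im1 : ZI) := by
      intro h
      have h3 := h.mul_right (1 + im1)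
      have h4 : (1 - im1) * (1 + im1) = (2 : ZI) := by decide
      rw [h4] at h3
      exact not_dvd_two hp h3
    have h1i' : ¬ p ∣ (1 + im1 : ZI) := by
      intro h
      have h3 := h.mul_right (1 - im1)
      have h4 : (1 + im1) * (1 - im1) = (2 : ZI) := by decide
      rw [h4] at h3
      exact not_dvd_two hp h3
    have h22 := not_dvd_two hp
    have hi2 : ¬ p ∣ (2 * im1 : ZI) := by
      intro h
      rcases hp.pr.dvd_or_dvd h with h | h
      · exact h22 h
      · exact not_dvd_unit' (w := -im1) hp.pr (by decide) h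
    have n1 := hne t (im1 * t) (by rw [show t - im1 * t = (1 - im1) * t by ring]; exact hu _ h1i)
    have n2 := hne t (-t) (by rw [show t - -t = 2 * t by ring]; exact hu _ h22)
    have n3 := hne t (im1 * -t) (by rw [show t - im1 * -t = (1 + im1) * t by ring]; exact hu _ h1i')
    have n4 := hne (im1 * t) (-t) (by rw [show im1 * t - -t = (1 + im1) * t by ring]; exact hu _ h1i')
    have n5 := hne (im1 * t) (im1 * -t) (by
      rw [show im1 * t - im1 * -t = (2 * im1) * t by ring]; exact hu _ hi2)
    have n6 := hne (-t) (im1 * -t) (by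
      rw [show -t - im1 * -t = -((1 - im1) * t) by ring, dvd_neg]; exact hu _ h1i)
    have r1 : im1 * (im1 * t) = -t := by rw [← mul_assoc, im_sq]; ring
    have r2 : im1 * -(im1 * t) = t := by rw [mul_neg, r1, neg_neg]
    have r3 : im1 * (im1 * -t) = t := by rw [← mul_assoc, im_sq]; ring
    have r4 : im1 * -(im1 * -t) = -t := by rw [mul_neg, r3]
    have r5 : -(im1 * t) = im1 * -t := by ring
    have r6 : -(im1 * -t) = im1 * t := by ring
    simp only [P, r1, r2, r3, r4, r5, r6, neg_neg]
    generalize e (mk t) = a1 at *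
    generalize e (mk (im1 * t)) = a2 at *
    generalize e (mk (-t)) = a3 at *
    generalize e (mk (im1 * -t)) = a4 at *
    rcases lt_or_gt_of_ne n1 with h1 | h1 <;> rcases lt_or_gt_of_ne n2 with h3 | h3 <;>
    rcases lt_or_gt_of_ne n3 with h4 | h4 <;> rcases lt_or_gt_of_ne n4 with h5 | h5 <;>
    rcases lt_or_gt_of_ne n5 with h6 | h6 <;> rcases lt_or_gt_of_ne n6 with h7 | h7 <;>
    simp [h1, h3, h4, h5, h6, h7, not_lt.2 h1.le, not_lt.2 h3.le, not_lt.2 h4.le, not_lt.2 h5.le,
      not_lt.2 h6.le, not_lt.2 h7.le] <;> omega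
  -- the integral function
  let Rz : ZI → ℤ := fun t => if P t then 1 else 0
  have hRz : Per p Rz := fun t s => by
    show (if P (t + p * s) then (1 : ℤ) else 0) = if P t then 1 else 0
    exact if_congr (hP t s) rfl rfl
  have hp0 := hp.ne
  let f : ZI → ℤ := fun t => if p ∣ t then 0 else Rz t
  have hf : Per p f := by
    intro t s
    have h1 : p ∣ t + p * s ↔ p ∣ t := dvd_add_left (dvd_mul_right _ _)
    show (if p ∣ t + p * s then 0 else Rz (t + p * s)) = if p ∣ t then 0 else Rz t
    rw [hRz]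
    exact if_congr h1 rfl rfl
  have hc : ∀ c w : ZI, c * w = 1 → IsCoprime c p := fun c w h => ⟨w, 0, by linear_combination h⟩
  have g1 := SS_unit (A := ℤ) (D := p) (c := im1) hp0 (hc _ (-im1) (by decide)) hf
  have g2 := SS_unit (A := ℤ) (D := p) (c := -1) hp0 (hc _ (-1) (by decide)) hf
  have g3 := SS_unit (A := ℤ) (D := p) (c := -im1) hp0 (hc _ im1 (by decide)) hf
  have hK : 4 * SS p f = p.norm - 1 := by
    have h1 : SS p (fun t => f t + (f (im1 * t) + (f (-1 * t) + f (-im1 * t)))) = 4 * SS p f := by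
      rw [SS_add hp0, SS_add hp0, SS_add hp0, g1, g2, g3]
      ring
    have h3 : (fun t => f t + (f (im1 * t) + (f (-1 * t) + f (-im1 * t)))) =
        fun t => if p ∣ t then (0 : ℤ) else 1 := by
      funext t
      by_cases ht : p ∣ t
      · have h4 : p ∣ im1 * t := ht.mul_left _
        have h5 : p ∣ -1 * t := ht.mul_left _
        have h6 : p ∣ -im1 * t := ht.mul_left _
        simp only [f, if_pos ht, if_pos h4, if_pos h5, if_pos h6, add_zero]
      · have h4 : ¬ p ∣ im1 * t := fun h => ht (im_dvd.1 h)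
        have h5 : ¬ p ∣ -1 * t := fun h => ht (by rw [neg_one_mul] at h; exact dvd_neg.1 h)
        have h6 : ¬ p ∣ -im1 * t := fun h => ht (im_dvd.1 (by rw [neg_mul] at h; exact dvd_neg.1 h))
        have h7 := hfour t ht
        simp only [f, if_neg ht, if_neg h4, if_neg h5, if_neg h6, Rz]
        have e1 : -1 * t = -t := by ring
        have e2 : -im1 * t = im1 * -t := by ring
        rw [e1, e2]
        linear_combination h7
    rw [← h1, h3]
    have h8 := SS_ne (A := ℤ) (p := p) hp0 (h := fun _ => 1) (fun _ _ => rfl)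
    rw [h8, SS_eq]
    rw [Finset.sum_const, Finset.card_univ, card_fin hp, nsmul_one]
    have := nrm_cast p
    exact_mod_cast congrArg (fun x : ℤ => x - 1) this
  refine ⟨fun t => ((Rz t : ℤ) : A), ?_, ?_, ?_⟩
  · intro t s
    show ((Rz (t + p * s) : ℤ) : A) = _
    rw [hRz]
  · intro t ht
    have h := hfour t ht
    have h' := congrArg (fun x : ℤ => (x : A)) h
    simp only [Int.cast_add, Int.cast_one] at h'
    exact h'
  · have h1 : SS p (fun t => if p ∣ t then (0 : A) else ((Rz t : ℤ) : A)) = ((SS p f : ℤ) : A) := by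
      rw [SS_eq, SS_eq]
      push_cast
      refine Finset.sum_congr rfl fun q _ => ?_
      simp only [f]
      split_ifs <;> simp
    refine Eq.trans ?_ (h1.trans ?_)
    · rfl
    have hm := hp.norm_mod
    by_cases h8 : p.norm % 8 = 5
    · rw [if_pos h8]
      obtain ⟨k, hk⟩ : ∃ k, SS p f = 2 * k + 1 := ⟨SS p f / 2, by omega⟩
      rw [hk]
      push_cast
      rw [h2]
      simp [uA]
    · rw [if_neg h8]
      obtain ⟨k, hk⟩ : ∃ k, SS p f = 2 * k := ⟨SS p f / 2, by omega⟩
      rw [hk]
      push_cast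
      rw [h2]
      simp [uA]

end Pool.Agent.D0H15.Q4
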