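import Pool.Agent.D0H15.Q4.Sum

/-!
Project Q4, module A9: the recursion of the sums over half systems.
-/

set_option autoImplicit false

open Finset

namespace Pool.Agent.D0H15.Q4

open H385 (ZI RQ im1 nrm)
open Pool.Agent.Y699
open Pool.Agent.D0H10.Q4 (oo uA Dst)
open Pool.Agent.H304R2.EC.A1 (prim prim_mul prim_norm_odd prim_ne_zero)

variable {A : Type} [CommRing A] {ι : Type} [DecidableEq ι] {pr : ι → ZI}

theorem zm : ∀ a : ZMod 2, a = 0 ∨ a = 1 := by decide

/-- `uA` as a homomorphism of rings -/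
def uR (h2 : (2 : A) = 0) : ZMod 2 →+* A where
  toFun := uA
  map_one' := by simp [uA]
  map_zero' := by simp [uA]
  map_mul' a b := by
    rcases zm a with rfl | rfl <;> rcases zm b with rfl | rfl <;> simp [uA]
  map_add' a b := by
    have h : (1 : A) + 1 = 0 := by rw [one_add_one_eq_two, h2]
    have h' : (1 : ZMod 2) + 1 = 0 := by decide
    rcases zm a with rfl | rfl <;> rcases zm b with rfl | rfl <;> simp [uA, h, h']

theorem uR_apply (h2 : (2 : A) = 0) (a : ZMod 2) : uR h2 a = uA a := rfl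

omit [DecidableEq ι] in
theorem oo_per {i : ι} {a b : ZI} (h : pr i ∣ a - b) : oo pr i a = oo pr i b := by
  unfold oo
  rw [qr_per (a := 8 * a) (b := 8 * b) (by rw [← mul_sub]; exact h.mul_left _)]

omit [DecidableEq ι] in
theorem oo_neg (hp : PF pr) (i : ι) (a : ZI) : oo pr i (-a) = oo pr i a := by
  unfold oo
  rw [mul_neg, qr_neg (hp.pp i)]

theorem not_dvd_eight {π a : ZI} (h : PP π) (ha : ¬ π ∣ a) : ¬ π ∣ 8 * a := by
  intro h1
  rcases h.pr.dvd_or_dvd h1 with h2 | h2
  · have h3 : (8 : ZI) = 2 ^ 3 := by norm_num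
    rw [h3] at h2
    exact not_dvd_two h (h.pr.dvd_of_dvd_pow h2)
  · exact ha h2

omit [DecidableEq ι] in
theorem oo_mul (hp : PF pr) {m k : ι} (hmk : m ≠ k) {a : ZI} (ha : ¬ pr k ∣ a) :
    oo pr k (pr m * a) = Y699.em pr m k + oo pr k a := by
  have hk := hp.pp k
  have h1 : ¬ pr k ∣ pr m := fun h => hmk (hp.inj (hk.eq_of_dvd (hp.pp m) h)).symm
  have e : 8 * (pr m * a) = pr m * (8 * a) := by ring
  unfold oo Y699.em
  rw [e, qr_mul hk]
  have h3 : (1 : ZMod 2) + 1 = 0 := by decide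
  rcases qr_cases h1 with h | h <;> rcases qr_cases (not_dvd_eight hk ha) with h' | h' <;>
    rw [h, h'] <;> norm_num
  exact h3.symm

/-- prime to all primes of `V` -/
def un (pr : ι → ZI) (V : Finset ι) (t : ZI) : Prop := ∀ i ∈ V, ¬ pr i ∣ t

omit [DecidableEq ι] in
theorem dvd_DD' {V : Finset ι} {i : ι} (hi : i ∈ V) : pr i ∣ DD pr V := Finset.dvd_prod_of_mem _ hi

theorem DD_erase {V : Finset ι} {m : ι} (hm : m ∈ V) : DD pr V = pr m * DD pr (V.erase m) :=
  (Finset.mul_prod_erase V pr hm).symm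

theorem cop_erase (hp : PF pr) (V : Finset ι) (m : ι) : IsCoprime (pr m) (DD pr (V.erase m)) :=
  IsCoprime.prod_right fun i hi => (hp.pp m).cop (hp.pp i) fun h =>
    (Finset.mem_erase.1 hi).1 (hp.inj h).symm

omit [DecidableEq ι] in
theorem un.not_dvd {V : Finset ι} (hV : V.Nonempty) {t : ZI} (h : un pr V t) : ¬ DD pr V ∣ t := by
  obtain ⟨i, hi⟩ := hV
  exact fun h' => h i hi ((dvd_DD' hi).trans h')

omit [DecidableEq ι] in
theorem un_per {V : Finset ι} {a b : ZI} (h : DD pr V ∣ a - b) : un pr V a ↔ un pr V b := by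
  refine forall₂_congr fun i hi => not_congr ?_
  have h1 := (dvd_DD' (pr := pr) hi).trans h
  constructor
  · intro h2
    have := dvd_sub h2 h1
    rwa [sub_sub_cancel] at this
  · intro h2
    have := dvd_add h1 h2
    rwa [sub_add_cancel] at this

omit [DecidableEq ι] in
theorem un_neg {V : Finset ι} {a : ZI} : un pr V (-a) ↔ un pr V a := by
  refine forall₂_congr fun i _ => not_congr dvd_neg

theorem un_crt (hp : PF pr) {V : Finset ι} {m : ι} (hm : m ∈ V) (b c : ZI) :
    un pr V (pr m * b + DD pr (V.erase m) * c) ↔ un pr (V.erase m) b ∧ ¬ pr m ∣ c := by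
  have h1 : pr m ∣ pr m * b + DD pr (V.erase m) * c ↔ pr m ∣ c := by
    rw [dvd_add_right (dvd_mul_right _ _)]
    constructor
    · exact fun h => (cop_erase hp V m).dvd_of_dvd_mul_left h
    · exact fun h => h.mul_left _
  have h2 : ∀ k ∈ V.erase m, (pr k ∣ pr m * b + DD pr (V.erase m) * c ↔ pr k ∣ b) := by
    intro k hk
    rw [dvd_add_left ((dvd_DD' hk).mul_right c)]
    exact PF.dvd_mul hp (Finset.ne_of_mem_erase hk).symm b
  constructor
  · intro h
    exact ⟨fun k hk => fun h' => h k (Finset.mem_of_mem_erase hk) ((h2 k hk).2 h'),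
      fun h' => h m hm (h1.2 h')⟩
  · rintro ⟨h3, h4⟩ k hk
    by_cases hkm : k = m
    · subst hkm
      exact fun h => h4 (h1.1 h)
    · have hk' := Finset.mem_erase.2 ⟨hkm, hk⟩
      exact fun h => h3 k hk' ((h2 k hk').1 h)

open Classical in
/-- the even function of the sums -/
noncomputable def gf (pr : ι → ZI) (F : ZI → ZI → A) (V W : Finset ι) (t : ZI) : A :=
  if un pr V t then uA (∏ k ∈ V \ W, oo pr k t) * F (DD pr V) t else 0

/-- the sum over a half system -/
noncomputable def Psi (pr : ι → ZI) (F : ZI → ZI → A) (V W : Finset ι) (S : ZI → A) : A :=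
  SS (DD pr V) (fun t => S t * gf pr F V W t)

/-- a half system of the units -/
structure Sl (pr : ι → ZI) (V : Finset ι) (S : ZI → A) : Prop where
  per : Per (DD pr V) S
  one : ∀ t, un pr V t → S t + S (-t) = 1

theorem DD_odd (hp : PF pr) (V : Finset ι) : (DD pr V).norm % 2 = 1 := prim_norm_odd (DD_prim hp V)

theorem exists_Sl (hp : PF pr) {V : Finset ι} (hV : V.Nonempty) : ∃ S : ZI → A, Sl pr V S := by
  obtain ⟨S, h1, h3⟩ := exists_sel A (DD_odd hp V)
  exact ⟨S, h1, fun t ht => h3 t (ht.not_dvd hV)⟩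

variable {F : ZI → ZI → A}

theorem gf_per (hF : Dst F) (V W : Finset ι) : Per (DD pr V) (gf pr F V W) := by
  intro t s
  have h1 : DD pr V ∣ (t + DD pr V * s) - t := ⟨s, by ring⟩
  unfold gf
  rw [hF.per]
  have h3 : ∏ k ∈ V \ W, oo pr k (t + DD pr V * s) = ∏ k ∈ V \ W, oo pr k t :=
    Finset.prod_congr rfl fun k hk => oo_per ((dvd_DD' (Finset.mem_sdiff.1 hk).1).trans h1)
  rw [h3]
  classical exact if_congr (un_per h1) rfl rfl

theorem gf_neg (hp : PF pr) (hF : Dst F) (V W : Finset ι) (t : ZI) : gf pr F V W (-t) = gf pr F V W t := by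
  unfold gf
  rw [hF.ev]
  simp only [oo_neg hp]
  classical exact if_congr un_neg rfl rfl

theorem gf_zero {V : Finset ι} (hV : V.Nonempty) (W : Finset ι) : gf pr F V W 0 = 0 := by
  unfold gf
  rw [if_neg]
  intro h
  exact h.not_dvd hV (dvd_zero _)

theorem gf_ne {V W : Finset ι} {t : ZI} (h : gf pr F V W t ≠ 0) : un pr V t := by
  unfold gf at h
  by_contra hc
  rw [if_neg hc] at h
  exact h rfl

theorem Psi_indep (h2 : (2 : A) = 0) (hp : PF pr) (hF : Dst F) {V : Finset ι} (hV : V.Nonempty)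
    (W : Finset ι) {S S' : ZI → A} (hS : Sl pr V S) (hS' : Sl pr V S') :
    Psi pr F V W S = Psi pr F V W S' :=
  sel_indep h2 (DD_odd hp V) hS.per hS'.per (gf_per hF V W) (gf_neg hp hF V W) (gf_zero hV W)
    (fun t ht => hS.one t (gf_ne ht)) (fun t ht => hS'.one t (gf_ne ht))

open Classical in
/-- the sum over the nonzero classes -/
theorem SS_ne {p : ZI} (hp : p ≠ 0) {h : ZI → A} (hh : Per p h) :
    SS p (fun c => if p ∣ c then 0 else h c) = SS p h - h 0 := by
  have := H385.he1_finite hp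
  let _ := Fintype.ofFinite (RQ p)
  rw [SS_eq, SS_eq, eq_sub_iff_add_eq, ← Finset.add_sum_erase _ (fun q : RQ p => h q.out) (Finset.mem_univ 0),
    ← Finset.add_sum_erase _ (fun q : RQ p => if p ∣ q.out then 0 else h q.out) (Finset.mem_univ 0)]
  have h0 : p ∣ (0 : RQ p).out := by rw [← mk_eq_zero, Ideal.Quotient.mk_out]
  have e0 : h (0 : RQ p).out = h 0 := hh.of_dvd (by rwa [sub_zero])
  rw [if_pos h0, zero_add, e0, add_comm]
  congr 1
  refine Finset.sum_congr rfl fun q hq => ?_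
  rw [if_neg]
  rw [← mk_eq_zero, Ideal.Quotient.mk_out]
  exact (Finset.mem_erase.1 hq).1

end Pool.Agent.D0H15.Q4
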