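import Pool.Agent.D0H10.Q4.Defs

/-!
Project Q4, module A9: sums over residue classes with values in a ring.
-/

set_option autoImplicit false

open Finset

namespace Pool.Agent.D0H15.Q4

open H385 (ZI RQ im1 nrm)
open Pool.Agent.Y699
open Pool.Agent.H304R2.EC.A1 (prim prim_mul prim_norm_odd prim_ne_zero)

variable {A : Type} [CommRing A]

/-- periodic functions -/
def Per (D : ZI) (f : ZI → A) : Prop := ∀ t s, f (t + D * s) = f t

/-- the sum over the classes -/
noncomputable def SS (D : ZI) (f : ZI → A) : A := ∑ᶠ q : RQ D, f q.out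

omit [CommRing A] in
theorem Per.of_dvd {D : ZI} {f : ZI → A} (hf : Per D f) {a b : ZI} (h : D ∣ a - b) : f a = f b := by
  obtain ⟨s, hs⟩ := h
  have h1 : a = b + D * s := by linear_combination hs
  rw [h1, hf]

theorem SS_eq {D : ZI} [Fintype (RQ D)] (f : ZI → A) : SS D f = ∑ q : RQ D, f q.out :=
  finsum_eq_sum_of_fintype _

theorem SS_add {D : ZI} (hD : D ≠ 0) (f g : ZI → A) : SS D (fun t => f t + g t) = SS D f + SS D g := by
  have := H385.he1_finite hD
  let _ := Fintype.ofFinite (RQ D)
  simp only [SS_eq, Finset.sum_add_distrib]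

theorem SS_sum {D : ZI} (hD : D ≠ 0) {κ : Type} (s : Finset κ) (f : κ → ZI → A) :
    SS D (fun t => ∑ k ∈ s, f k t) = ∑ k ∈ s, SS D (f k) := by
  have := H385.he1_finite hD
  let _ := Fintype.ofFinite (RQ D)
  simp only [SS_eq]
  exact Finset.sum_comm

theorem SS_mul {D : ZI} (hD : D ≠ 0) (c : A) (f : ZI → A) : SS D (fun t => c * f t) = c * SS D f := by
  have := H385.he1_finite hD
  let _ := Fintype.ofFinite (RQ D)
  simp only [SS_eq, Finset.mul_sum]

theorem SS_zero (D : ZI) : SS D (fun _ => (0 : A)) = 0 := finsum_zero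

/-- multiplication by a unit modulo `D` -/
theorem SS_unit {D c : ZI} (hD : D ≠ 0) (hc : IsCoprime c D) {f : ZI → A} (hf : Per D f) :
    SS D (fun t => f (c * t)) = SS D f := by
  have := H385.he1_finite hD
  let _ := Fintype.ofFinite (RQ D)
  have hu : IsUnit (Ideal.Quotient.mk (Ideal.span {D}) c) := by
    obtain ⟨a, b, hab⟩ := hc
    refine IsUnit.of_mul_eq_one (Ideal.Quotient.mk (Ideal.span {D}) a) ?_
    rw [← map_mul, ← map_one (Ideal.Quotient.mk (Ideal.span {D})), mk_eq_mk]
    exact ⟨-b, by linear_combination hab⟩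
  rw [SS_eq, SS_eq, ← Equiv.sum_comp (Units.mulLeft hu.unit) (fun q : RQ D => f q.out)]
  refine Finset.sum_congr rfl fun q _ => ?_
  have h := out_mul D c q
  exact (hf.of_dvd h).symm

/-- the Chinese remainder theorem -/
theorem SS_crt {p D : ZI} (hp : p ≠ 0) (hD : D ≠ 0) (hc : IsCoprime p D) {f : ZI → A}
    (hf : Per (p * D) f) : SS (p * D) f = SS D (fun b => SS p (fun c => f (p * b + D * c))) := by
  have hpD : p * D ≠ 0 := mul_ne_zero hp hD
  have := H385.he1_finite hD
  have := H385.he1_finite hp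
  have := H385.he1_finite hpD
  let _ := Fintype.ofFinite (RQ D)
  let _ := Fintype.ofFinite (RQ p)
  let _ := Fintype.ofFinite (RQ (p * D))
  obtain ⟨u, v, huv⟩ := hc
  have hbij : Function.Bijective (fun x : RQ D × RQ p =>
      Ideal.Quotient.mk (Ideal.span {p * D}) (p * x.1.out + D * x.2.out)) := by
    constructor
    · rintro ⟨b, c⟩ ⟨b', c'⟩ h
      have h1 : p * D ∣ (p * b.out + D * c.out) - (p * b'.out + D * c'.out) := (mk_eq_mk _ _).1 h
      obtain ⟨w, hw⟩ := h1
      have h2 : D ∣ b.out - b'.out := by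
        refine ⟨v * (b.out - b'.out) + u * (p * w - (c.out - c'.out)), ?_⟩
        linear_combination (b'.out - b.out) * huv + u * hw
      have h3 : p ∣ c.out - c'.out := by
        refine ⟨u * (c.out - c'.out) + v * (D * w - (b.out - b'.out)), ?_⟩
        linear_combination (c'.out - c.out) * huv + v * hw
      have h4 : b = b' := by
        have := (mk_eq_mk _ _).2 h2
        rwa [Ideal.Quotient.mk_out, Ideal.Quotient.mk_out] at this
      have h5 : c = c' := by
        have := (mk_eq_mk _ _).2 h3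
        rwa [Ideal.Quotient.mk_out, Ideal.Quotient.mk_out] at this
      rw [h4, h5]
    · intro q
      refine ⟨(Ideal.Quotient.mk _ (u * q.out), Ideal.Quotient.mk _ (v * q.out)), ?_⟩
      have h1 : D ∣ (Ideal.Quotient.mk (Ideal.span {D}) (u * q.out)).out - u * q.out := by
        rw [← mk_eq_mk, Ideal.Quotient.mk_out]
      have h2 : p ∣ (Ideal.Quotient.mk (Ideal.span {p}) (v * q.out)).out - v * q.out := by
        rw [← mk_eq_mk, Ideal.Quotient.mk_out]
      obtain ⟨s, hs⟩ := h1
      obtain ⟨s', hs'⟩ := h2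
      conv_rhs => rw [← Ideal.Quotient.mk_out q]
      show Ideal.Quotient.mk _ _ = _
      rw [mk_eq_mk]
      refine ⟨s + s', ?_⟩
      linear_combination p * hs + D * hs' + q.out * huv
  rw [SS_eq, SS_eq]
  simp only [SS_eq]
  rw [← (Equiv.ofBijective _ hbij).sum_comp, Fintype.sum_prod_type]
  refine Finset.sum_congr rfl fun b _ => Finset.sum_congr rfl fun c _ => ?_
  refine hf.of_dvd ?_
  show p * D ∣ (Ideal.Quotient.mk (Ideal.span {p * D}) (p * b.out + D * c.out)).out - _
  rw [← mk_eq_mk, Ideal.Quotient.mk_out]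

/-- `2 t` divisible by an odd `D` -/
theorem dvd_two {D t : ZI} (hD : D.norm % 2 = 1) (h : D ∣ 2 * t) : D ∣ t := by
  have hn : ((D.norm : ℤ) : ZI) = D * star D := Zsqrtd.norm_eq_mul_conj D
  obtain ⟨k, hk⟩ : ∃ k, D.norm = 2 * k + 1 := ⟨D.norm / 2, by omega⟩
  obtain ⟨w, hw⟩ := h
  rw [hk] at hn
  push_cast at hn
  refine ⟨star D * t - (k : ZI) * w, ?_⟩
  linear_combination t * hn - (k : ZI) * hw

/-- even functions in characteristic two -/
theorem SS_even (h2 : (2 : A) = 0) {D : ZI} (hD : D.norm % 2 = 1) {f : ZI → A} (hf : Per D f)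
    (hev : ∀ t, f (-t) = f t) (h0 : f 0 = 0) : SS D f = 0 := by
  have hD0 : D ≠ 0 := by
    rintro rfl
    revert hD
    decide
  have := H385.he1_finite hD0
  let _ := Fintype.ofFinite (RQ D)
  rw [SS_eq]
  have hneg : ∀ q : RQ D, f ((-q).out) = f q.out := by
    intro q
    have h : D ∣ (-q).out - (-q.out) := by
      rw [← mk_eq_mk, Ideal.Quotient.mk_out, map_neg, Ideal.Quotient.mk_out]
    rw [hf.of_dvd h, hev]
  refine Finset.sum_involution (fun q _ => -q) ?_ ?_ ?_ ?_
  · intro q _
    rw [hneg, ← two_mul, h2, zero_mul]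
  · intro q _ hq hqq
    apply hq
    have h1 : D ∣ 2 * q.out := by
      rw [← mk_eq_zero, map_mul, Ideal.Quotient.mk_out, map_ofNat, two_mul]
      nth_rewrite 1 [← hqq]
      exact neg_add_cancel q
    have h3 := dvd_two hD h1
    rw [← h0]
    exact hf.of_dvd (by rwa [sub_zero])
  · intro q _
    exact Finset.mem_univ _
  · intro q _
    exact neg_neg q

/-- the sum over a half system does not depend on the half system -/
theorem sel_indep (h2 : (2 : A) = 0) {D : ZI} (hD : D.norm % 2 = 1) {S S' : ZI → A} (hS : Per D S)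
    (hS' : Per D S') {f : ZI → A} (hf : Per D f) (hev : ∀ t, f (-t) = f t) (h0 : f 0 = 0)
    (h1 : ∀ t, f t ≠ 0 → S t + S (-t) = 1) (h1' : ∀ t, f t ≠ 0 → S' t + S' (-t) = 1) :
    SS D (fun t => S t * f t) = SS D (fun t => S' t * f t) := by
  have hD0 : D ≠ 0 := by
    rintro rfl
    revert hD
    decide
  have hneg : ∀ a : A, a + a = 0 := fun a => by rw [← two_mul, h2, zero_mul]
  have h1 : SS D (fun t => S t * f t) + SS D (fun t => S' t * f t) = 0 := by
    rw [← SS_add hD0]
    refine SS_even h2 hD ?_ ?_ ?_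
    · intro t s
      simp only [hf t s, hS t s, hS' t s]
    · intro t
      simp only [hev]
      by_cases ht : f t = 0
      · rw [ht]; ring
      · have e1 := h1 t ht
        have e2 := h1' t ht
        have e3 := hneg (S t)
        linear_combination f t * (e1 - e2) - f t * e3 + f t * S' (-t) * h2
    · simp only [h0, mul_zero, add_zero]
  have h3 := hneg (SS D (fun t => S' t * f t))
  linear_combination h1 - h3

/-- half systems exist -/
theorem exists_sel (A : Type) [CommRing A] {D : ZI} (hD : D.norm % 2 = 1) : ∃ S : ZI → A, Per D S ∧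
    ∀ t, ¬ D ∣ t → S t + S (-t) = 1 := by
  have hD0 : D ≠ 0 := by
    rintro rfl
    revert hD
    decide
  have := H385.he1_finite hD0
  let e := Finite.equivFin (RQ D)
  refine ⟨fun t => if e (Ideal.Quotient.mk _ t) < e (Ideal.Quotient.mk _ (-t)) then 1 else 0, ?_, ?_⟩
  · intro t s
    have h1 : Ideal.Quotient.mk (Ideal.span {D}) (t + D * s) = Ideal.Quotient.mk _ t :=
      (mk_eq_mk _ _).2 ⟨s, by ring⟩
    have h2 : Ideal.Quotient.mk (Ideal.span {D}) (-(t + D * s)) = Ideal.Quotient.mk _ (-t) :=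
      (mk_eq_mk _ _).2 ⟨-s, by ring⟩
    simp only [h1, h2]
  · intro t ht
    have hne : e (Ideal.Quotient.mk _ t) ≠ e (Ideal.Quotient.mk _ (-t)) := by
      intro h
      have h1 := (mk_eq_mk _ _).1 (e.injective h)
      exact ht (dvd_two hD (by convert h1 using 1; ring))
    simp only [neg_neg]
    rcases lt_or_gt_of_ne hne with h | h
    · rw [if_pos h, if_neg (not_lt.2 h.le), add_zero]
    · rw [if_neg (not_lt.2 h.le), if_pos h, zero_add]

end Pool.Agent.D0H15.Q4
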